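import Mathlib

set_option autoImplicit false

/-!
The two-function (antipodal) inequality on the discrete cube.
-/

namespace Pool.H15.PB

theorem ap_one (w S u0 u1 v0 v1 : ℝ) (hw : 0 < w) (hS : 0 ≤ S)
    (hu1 : 0 ≤ u1) (hv1 : 0 ≤ v1)
    (h00 : u0 * v0 ≤ S) (h11 : u1 * v1 ≤ S) (h01 : u0 * v1 * w ≤ S) (h10 : u1 * v0 * w ≤ S) :
    (u0 + u1) * (v0 + v1) ≤ (2 + w + 1 / w) * S := by
  have hp : u0 * v1 ≤ S / w := by rw [le_div_iff₀ hw]; exact h01
  have hq : u1 * v0 ≤ S / w := by rw [le_div_iff₀ hw]; exact h10
  have hpq : (u0 * v1) * (u1 * v0) ≤ S * S := by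
    calc (u0 * v1) * (u1 * v0) = (u0 * v0) * (u1 * v1) := by ring
      _ ≤ S * S := mul_le_mul h00 h11 (mul_nonneg hu1 hv1) hS
  have h1 : 0 ≤ (S / w - u0 * v1) * (S / w - u1 * v0) :=
    mul_nonneg (sub_nonneg.2 hp) (sub_nonneg.2 hq)
  have h2 : (S / w) * (u0 * v1 + u1 * v0) ≤ (S / w) * (S / w) + S * S := by nlinarith
  have h3 : u0 * v1 + u1 * v0 ≤ S / w + S * w := by
    rcases hS.eq_or_lt with h0 | h0
    · rw [← h0] at hp hq ⊢
      simp only [zero_div, zero_mul, add_zero] at hp hq ⊢
      linarith
    · have h4 : 0 < S / w := div_pos h0 hw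
      have h5 : (S / w) * (u0 * v1 + u1 * v0) ≤ (S / w) * (S / w + S * w) := by
        refine h2.trans (le_of_eq ?_)
        field_simp
      exact le_of_mul_le_mul_left h5 h4
  have h6 : (2 + w + 1 / w) * S = S + S + (S / w + S * w) := by field_simp; ring
  rw [h6]
  nlinarith

theorem ap_sum_cons {d : ℕ} (u : (Fin (d + 1) → Bool) → ℝ) :
    ∑ x, u x = (∑ y, u (Fin.cons false y)) + ∑ y, u (Fin.cons true y) := by
  have h := Fintype.sum_equiv (Fin.consEquiv (fun _ : Fin (d + 1) => Bool)).symm u
    (fun p => u (Fin.cons p.1 p.2)) (by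
      intro x
      congr 1
      exact (Fin.cons_self_tail x).symm)
  rw [h, Fintype.sum_prod_type, Fintype.sum_bool, add_comm]

theorem ap_main (w : ℝ) (hw : 0 < w) : ∀ (d : ℕ) (S : ℝ) (u v : (Fin d → Bool) → ℝ), 0 ≤ S →
    (∀ x, 0 ≤ u x) → (∀ x, 0 ≤ v x) →
    (∀ x y, u x * v y * ∏ i, (if x i = y i then 1 else w) ≤ S) →
    (∑ x, u x) * (∑ y, v y) ≤ (2 + w + 1 / w) ^ d * S := by
  intro d
  induction d with
  | zero =>
    intro S u v hS hu hv h
    have h1 := h (@default _ Unique.instInhabited) (@default _ Unique.instInhabited)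
    rw [Finset.univ_unique, Finset.sum_singleton, Finset.sum_singleton]
    rw [Finset.univ_eq_empty, Finset.prod_empty, mul_one] at h1
    rw [pow_zero, one_mul]
    exact h1
  | succ d ih =>
    intro S u v hS hu hv h
    have hκ : 0 < (2 + w + 1 / w) ^ d := by positivity
    have key : ∀ a b : Bool, (∑ y, u (Fin.cons a y)) * (∑ y, v (Fin.cons b y)) *
        (if a = b then 1 else w) ≤ (2 + w + 1 / w) ^ d * S := by
      intro a b
      have hc : (0 : ℝ) < (if a = b then 1 else w) := by split_ifs <;> positivity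
      have h2 := ih (S / (if a = b then 1 else w)) (fun y => u (Fin.cons a y))
        (fun y => v (Fin.cons b y)) (div_nonneg hS hc.le) (fun _ => hu _) (fun _ => hv _) (by
          intro x y
          rw [le_div_iff₀ hc]
          have h3 := h (Fin.cons a x) (Fin.cons b y)
          rw [Fin.prod_univ_succ] at h3
          simp only [Fin.cons_zero, Fin.cons_succ] at h3
          calc u (Fin.cons a x) * v (Fin.cons b y) * (∏ i, (if x i = y i then 1 else w)) *
                (if a = b then 1 else w)
              = u (Fin.cons a x) * v (Fin.cons b y) * ((if a = b then 1 else w) *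
                ∏ i, (if x i = y i then 1 else w)) := by ring
            _ ≤ S := h3)
      rw [← le_div_iff₀ hc, mul_div_assoc]
      exact h2
    rw [ap_sum_cons u, ap_sum_cons v]
    have e : (2 + w + 1 / w) ^ (d + 1) * S = (2 + w + 1 / w) * ((2 + w + 1 / w) ^ d * S) := by
      ring
    rw [e]
    apply ap_one w _ _ _ _ _ hw (mul_nonneg hκ.le hS)
    · exact Finset.sum_nonneg fun _ _ => hu _
    · exact Finset.sum_nonneg fun _ _ => hv _
    · simpa using key false false
    · simpa using key true true
    · simpa using key false true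
    · simpa using key true false

theorem ap_prod_le {d : ℕ} (w : ℝ) (x y : Fin d → Bool) :
    ∏ i, (if x i = y i then 1 else w) = w ^ (Finset.univ.filter (fun i => x i ≠ y i)).card := by
  rw [Finset.prod_ite, Finset.prod_const_one, one_mul, Finset.prod_const]

/-- A set of more than `κ ^ (d/2) w ^ (m/2)` points of the cube contains two points which agree on
at most `m` coordinates. -/
theorem ap_exists (w : ℝ) (hw : 0 < w) (hw1 : w ≤ 1) (d m : ℕ) (P : Finset (Fin d → Bool))
    (hP : (2 + w + 1 / w) ^ d * w ^ (m + 1) < (P.card : ℝ) ^ 2) :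
    ∃ a ∈ P, ∃ b ∈ P, (Finset.univ.filter (fun i => a i = b i)).card ≤ m := by
  by_contra hcon
  push Not at hcon
  have h := ap_main w hw d (w ^ (m + 1)) (fun x => if x ∈ P then 1 else 0)
    (fun x => if (fun i => !x i) ∈ P then 1 else 0) (by positivity)
    (fun x => by split_ifs <;> norm_num) (fun x => by split_ifs <;> norm_num) (by
      intro x y
      by_cases hx : x ∈ P
      · by_cases hy : (fun i => !y i) ∈ P
        · rw [if_pos hx, if_pos hy, one_mul, one_mul, ap_prod_le]
          have h1 := hcon x hx _ hy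
          apply pow_le_pow_of_le_one hw.le hw1
          refine h1.trans_le (le_of_eq ?_)
          congr 1
          apply Finset.filter_congr
          intro i _
          cases x i <;> cases y i <;> simp
        · rw [if_neg hy, mul_zero, zero_mul]; positivity
      · rw [if_neg hx, zero_mul, zero_mul]; positivity)
  have e1 : ∑ x : Fin d → Bool, (if x ∈ P then (1 : ℝ) else 0) = P.card := by
    rw [Finset.sum_ite_mem, Finset.univ_inter, Finset.sum_const, nsmul_eq_mul, mul_one]
  have e2 : ∑ x : Fin d → Bool, (if (fun i => !x i) ∈ P then (1 : ℝ) else 0) = P.card := by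
    rw [← e1]
    refine Fintype.sum_equiv ⟨fun x i => !x i, fun x i => !x i, fun x => by funext i; simp,
      fun x => by funext i; simp⟩ _ _ (fun x => ?_)
    rfl
  rw [e1, e2] at h
  nlinarith

end Pool.H15.PB
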