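import Pool.Agent.H15.PB.TG
import Pool.Agent.H15.PB.AP

set_option autoImplicit false

/-!
Pigeonhole: a Bohr set of small rank contains a difference `X a - X b` of two points of the cube
which agree on at most a quarter of the coordinates.
-/

namespace Pool.H15.PB

/-- Distance of `γ x / N` to the nearest integer from two close representatives. -/
theorem bp_round (N : ℕ) (hN : 0 < N) (γ x y : ZMod N) (ε : ℝ)
    (h : |((γ * x).val : ℝ) / N - ((γ * y).val : ℝ) / N| ≤ ε) :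
    |((γ * (x - y)).val : ℝ) / (N : ℝ)
      - ((round (((γ * (x - y)).val : ℝ) / (N : ℝ)) : ℤ) : ℝ)| ≤ ε := by
  have : NeZero N := ⟨hN.ne'⟩
  have hN' : (N : ℝ) ≠ 0 := by exact_mod_cast hN.ne'
  have h1 : (((γ * (x - y)).val : ℤ) : ZMod N) = (((γ * x).val : ℤ) - ((γ * y).val : ℤ) : ℤ) := by
    push_cast
    rw [ZMod.natCast_zmod_val, ZMod.natCast_zmod_val, ZMod.natCast_zmod_val]
    ring
  rw [ZMod.intCast_eq_intCast_iff_dvd_sub] at h1
  obtain ⟨t, ht⟩ := h1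
  have h2 : ((γ * (x - y)).val : ℝ) / N - ((-t : ℤ) : ℝ) =
      ((γ * x).val : ℝ) / N - ((γ * y).val : ℝ) / N := by
    have h3 : (((γ * x).val : ℝ) - ((γ * y).val : ℝ)) - ((γ * (x - y)).val : ℝ) = N * t := by
      exact_mod_cast ht
    field_simp
    push_cast
    linarith
  refine (round_le _ (-t)).trans ?_
  rw [h2]
  exact h

theorem bp_box (N : ℕ) (hN : 0 < N) (m : ℕ) (hm : 0 < m) (u : ZMod N) :
    ⌊(m : ℝ) * ((u.val : ℝ) / N)⌋₊ < m := by
  have : NeZero N := ⟨hN.ne'⟩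
  have hN' : (0 : ℝ) < (N : ℝ) := by exact_mod_cast hN
  rw [Nat.floor_lt (by positivity)]
  have h1 : (u.val : ℝ) < N := by exact_mod_cast u.val_lt
  have h2 : (u.val : ℝ) / N < 1 := by rw [div_lt_one hN']; exact h1
  have h3 : (0 : ℝ) < m := by exact_mod_cast hm
  calc (m : ℝ) * ((u.val : ℝ) / N) < m * 1 := mul_lt_mul_of_pos_left h2 h3
    _ = m := mul_one _

theorem bp_close (m : ℕ) (hm : 0 < m) (s t : ℝ) (hs : 0 ≤ s) (ht : 0 ≤ t)
    (h : ⌊(m : ℝ) * s⌋₊ = ⌊(m : ℝ) * t⌋₊) : |s - t| ≤ 1 / m := by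
  have h3 : (0 : ℝ) < m := by exact_mod_cast hm
  have a1 := Nat.floor_le (mul_nonneg h3.le hs)
  have a2 := Nat.lt_floor_add_one ((m : ℝ) * s)
  have b1 := Nat.floor_le (mul_nonneg h3.le ht)
  have b2 := Nat.lt_floor_add_one ((m : ℝ) * t)
  rw [h] at a1 a2
  rw [abs_le]
  have e : ∀ z : ℝ, z = (m * z) / m := fun z => by field_simp
  constructor
  · have : (m : ℝ) * (-(1 / m)) ≤ m * (s - t) := by
      have : (m : ℝ) * (-(1 / m)) = -1 := by field_simp
      rw [this]; linarith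
    exact le_of_mul_le_mul_left this h3
  · have : (m : ℝ) * (s - t) ≤ m * (1 / m) := by
      have : (m : ℝ) * (1 / m) = 1 := by field_simp
      rw [this]; linarith
    exact le_of_mul_le_mul_left this h3

theorem bp_kappa : (2 + Real.exp (-(2 / 5)) + 1 / Real.exp (-(2 / 5))) ≤
    4 * Real.exp (1 / 25) := by
  have h1 : 1 / Real.exp (-(2 / 5)) = Real.exp (2 / 5) := by
    rw [Real.exp_neg, one_div, inv_inv]
  have h2 : Real.exp (-(2 / 5)) + Real.exp (2 / 5) = 2 * Real.cosh (2 / 5) := by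
    rw [Real.cosh_eq]; ring
  have h3 : Real.cosh (2 / 5) = 2 * Real.cosh (1 / 5) ^ 2 - 1 := by
    have := Real.cosh_two_mul (1 / 5)
    have h4 := Real.cosh_sq (1 / 5)
    have e : (2 : ℝ) * (1 / 5) = 2 / 5 := by norm_num
    rw [e] at this
    rw [this]
    linarith
  have h4 : Real.cosh (1 / 5) ^ 2 ≤ Real.exp (1 / 25) := by
    have h5 := Real.cosh_le_exp_half_sq (1 / 5)
    calc Real.cosh (1 / 5) ^ 2 ≤ Real.exp ((1 / 5) ^ 2 / 2) ^ 2 :=
          pow_le_pow_left₀ (Real.cosh_pos _).le h5 2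
      _ = Real.exp (1 / 25) := by
          rw [← Real.exp_nat_mul]; congr 1; norm_num
  rw [h1, add_assoc, h2, h3]
  linarith

theorem bp_num (d : ℕ) (P M : ℝ) (hd : 0 < d) (hM : 0 < M) (hMd : M ≤ Real.exp (d / 50))
    (hP : 2 ^ d / M ≤ P) :
    (2 + Real.exp (-(2 / 5)) + 1 / Real.exp (-(2 / 5))) ^ d *
      Real.exp (-(2 / 5)) ^ (d / 4 + 1) < P ^ 2 := by
  have hd' : (0 : ℝ) < d := by exact_mod_cast hd
  have hκ : (2 + Real.exp (-(2 / 5)) + 1 / Real.exp (-(2 / 5))) ^ d ≤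
      4 ^ d * Real.exp (d / 25) := by
    calc (2 + Real.exp (-(2 / 5)) + 1 / Real.exp (-(2 / 5))) ^ d
        ≤ (4 * Real.exp (1 / 25)) ^ d := pow_le_pow_left₀ (by positivity) bp_kappa d
      _ = 4 ^ d * Real.exp (d / 25) := by
          rw [mul_pow, ← Real.exp_nat_mul]; congr 2; ring
  have hw : Real.exp (-(2 / 5)) ^ (d / 4 + 1) < Real.exp (-(d / 10)) := by
    rw [← Real.exp_nat_mul, Real.exp_lt_exp]
    have h1 : d < 4 * (d / 4 + 1) := by omega
    have h2 : (d : ℝ) < 4 * ((d / 4 + 1 : ℕ) : ℝ) := by exact_mod_cast h1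
    linarith
  have hP2 : 4 ^ d * Real.exp (-(d / 25)) ≤ P ^ 2 := by
    have h1 : 2 ^ d * Real.exp (-(d / 50)) ≤ P := by
      refine le_trans ?_ hP
      rw [le_div_iff₀ hM]
      calc 2 ^ d * Real.exp (-(d / 50)) * M ≤ 2 ^ d * Real.exp (-(d / 50)) * Real.exp (d / 50) :=
            mul_le_mul_of_nonneg_left hMd (by positivity)
        _ = 2 ^ d := by rw [mul_assoc, ← Real.exp_add, neg_add_cancel, Real.exp_zero, mul_one]
    calc 4 ^ d * Real.exp (-(d / 25)) = (2 ^ d * Real.exp (-(d / 50))) ^ 2 := by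
          rw [mul_pow, ← Real.exp_nat_mul, ← pow_mul, mul_comm d 2, pow_mul]
          congr 1
          · norm_num
          · congr 1; push_cast; ring
      _ ≤ P ^ 2 := pow_le_pow_left₀ (by positivity) h1 2
  refine lt_of_lt_of_le ?_ hP2
  calc (2 + Real.exp (-(2 / 5)) + 1 / Real.exp (-(2 / 5))) ^ d *
      Real.exp (-(2 / 5)) ^ (d / 4 + 1) ≤ (4 ^ d * Real.exp (d / 25)) *
      Real.exp (-(2 / 5)) ^ (d / 4 + 1) := mul_le_mul_of_nonneg_right hκ (by positivity)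
    _ < (4 ^ d * Real.exp (d / 25)) * Real.exp (-(d / 10)) :=
        mul_lt_mul_of_pos_left hw (by positivity)
    _ = 4 ^ d * Real.exp (-(3 * d / 50)) := by
        rw [mul_assoc, ← Real.exp_add]; congr 2; ring
    _ ≤ 4 ^ d * Real.exp (-(d / 25)) := by
        apply mul_le_mul_of_nonneg_left _ (by positivity)
        rw [Real.exp_le_exp]
        linarith

theorem bp_main (N d : ℕ) (hN : 0 < N) (hd : 0 < d) (Γ : Finset (ZMod N)) (ε : ℝ) (hε : 0 < ε)
    (hD : (Γ.card : ℝ) * Real.log (2 + 1 / ε) ≤ d / 50) :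
    ∃ a b : Fin d → Bool, 4 * (Finset.univ.filter (fun i => a i = b i)).card ≤ d ∧
      ∀ γ ∈ Γ, |((γ * (X N a - X N b)).val : ℝ) / (N : ℝ)
        - ((round (((γ * (X N a - X N b)).val : ℝ) / (N : ℝ)) : ℤ) : ℝ)| ≤ ε := by
  obtain ⟨m, hm⟩ : ∃ m : ℕ, m = ⌈1 / ε⌉₊ := ⟨_, rfl⟩
  have hm0 : 0 < m := by rw [hm]; exact Nat.ceil_pos.2 (by positivity)
  have hm0' : (0 : ℝ) < m := by exact_mod_cast hm0
  have hm1 : 1 / ε ≤ m := by rw [hm]; exact Nat.le_ceil _
  have hm2 : (m : ℝ) ≤ 2 + 1 / ε := by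
    have := Nat.ceil_lt_add_one (a := 1 / ε) (by positivity)
    rw [hm]; linarith
  have hmε : 1 / (m : ℝ) ≤ ε := by
    rw [div_le_iff₀ hm0']
    rw [div_le_iff₀ hε] at hm1
    linarith
  obtain ⟨f, hf⟩ : ∃ f : (Fin d → Bool) → (Γ → Fin m),
      f = fun a γ => ⟨⌊(m : ℝ) * (((γ.1 * X N a).val : ℝ) / N)⌋₊, bp_box N hN m hm0 _⟩ := ⟨_, rfl⟩
  have hM : (Fintype.card (Γ → Fin m) : ℝ) = (m : ℝ) ^ Γ.card := by
    rw [Fintype.card_fun, Fintype.card_fin, Fintype.card_coe]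
    push_cast
    rfl
  have hMpos : (0 : ℝ) < (m : ℝ) ^ Γ.card := by positivity
  have : Nonempty (Γ → Fin m) := ⟨fun _ => ⟨0, hm0⟩⟩
  obtain ⟨y, _, hy⟩ := Finset.exists_le_card_fiber_of_nsmul_le_card_of_maps_to
    (s := (Finset.univ : Finset (Fin d → Bool))) (t := (Finset.univ : Finset (Γ → Fin m)))
    (f := f) (b := (2 : ℝ) ^ d / (m : ℝ) ^ Γ.card) (fun _ _ => Finset.mem_univ _)
    Finset.univ_nonempty (by
      rw [nsmul_eq_mul, Finset.card_univ, hM, mul_div_cancel₀ _ hMpos.ne', Finset.card_univ,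
        Fintype.card_fun, Fintype.card_bool, Fintype.card_fin]
      push_cast
      exact le_rfl)
  have hMexp : (m : ℝ) ^ Γ.card ≤ Real.exp (d / 50) := by
    rw [← Real.exp_log hMpos, Real.exp_le_exp, Real.log_pow]
    refine le_trans ?_ hD
    apply mul_le_mul_of_nonneg_left _ (Nat.cast_nonneg _)
    exact Real.log_le_log hm0' hm2
  obtain ⟨a, ha, b, hb, hab⟩ := ap_exists (Real.exp (-(2 / 5))) (Real.exp_pos _)
    (by rw [Real.exp_le_one_iff]; norm_num) d (d / 4) _ (bp_num d _ _ hd hMpos hMexp hy)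
  refine ⟨a, b, by omega, ?_⟩
  intro γ hγ
  apply bp_round N hN
  refine le_trans ?_ hmε
  have h1 : f a = y := (Finset.mem_filter.1 ha).2
  have h2 : f b = y := (Finset.mem_filter.1 hb).2
  have h3 : f a ⟨γ, hγ⟩ = f b ⟨γ, hγ⟩ := by rw [h1, h2]
  rw [hf] at h3
  exact bp_close m hm0 _ _ (by positivity) (by positivity) (congrArg Fin.val h3)

end Pool.H15.PB
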