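import Pool.Agent.H15.PB.NU
import Pool.Agent.H53.BT.FIN

set_option autoImplicit false

/-!
The popular lower bound together with the lower bound `L log L`.
-/

namespace Pool.H15.PB

theorem cb_root (q : ℕ) (hq : 1 ≤ q) (L l D B c : ℝ) (hl : 0 < l) (hL : l ≤ L)
    (hlog : 0 ≤ Real.log l) (hD : 0 ≤ D) (hc : 0 < c)
    (h1 : c * L ^ (q + 1) ≤ B * D ^ q) (h2 : B * Real.log l ^ q ≤ 2 * (c * l)) :
    1 / 2 * (L * Real.log l) ≤ D := by
  have hL0 : 0 < L := by linarith
  apply nu_ge q _ _ hq hD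
  have h3 : L ^ q * Real.log l ^ q * (c * L) ≤ 2 * (c * l) * D ^ q := by
    calc L ^ q * Real.log l ^ q * (c * L) = (c * L ^ (q + 1)) * Real.log l ^ q := by ring
      _ ≤ (B * D ^ q) * Real.log l ^ q := mul_le_mul_of_nonneg_right h1 (by positivity)
      _ = (B * Real.log l ^ q) * D ^ q := by ring
      _ ≤ (2 * (c * l)) * D ^ q := mul_le_mul_of_nonneg_right h2 (by positivity)
  have h4 : L ^ q * Real.log l ^ q * (c * L) ≤ 2 * D ^ q * (c * L) := by
    calc L ^ q * Real.log l ^ q * (c * L) ≤ 2 * (c * l) * D ^ q := h3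
      _ = 2 * D ^ q * (c * l) := by ring
      _ ≤ 2 * D ^ q * (c * L) := by
          apply mul_le_mul_of_nonneg_left _ (by positivity)
          exact mul_le_mul_of_nonneg_left hL hc.le
  have h5 : L ^ q * Real.log l ^ q ≤ 2 * D ^ q := le_of_mul_le_mul_right h4 (by positivity)
  have h6 : (1 / 2 : ℝ) ^ q ≤ 1 / 2 := by
    calc (1 / 2 : ℝ) ^ q ≤ (1 / 2) ^ 1 := pow_le_pow_of_le_one (by norm_num) (by norm_num) hq
      _ = 1 / 2 := pow_one _
  calc (1 / 2 * (L * Real.log l)) ^ q = (1 / 2) ^ q * (L ^ q * Real.log l ^ q) := by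
        rw [mul_pow, mul_pow]
    _ ≤ 1 / 2 * (L ^ q * Real.log l ^ q) := mul_le_mul_of_nonneg_right h6 (by positivity)
    _ ≤ D ^ q := by linarith

theorem cb_main (k : ℕ) (hk : 2 ≤ k) :
    ∃ c : ℝ, 0 < c ∧ ∃ C : ℝ, 0 < C ∧ ∃ l₀ : ℝ, ∀ N : ℕ, 0 < N → ∀ l K : ℝ, l₀ ≤ l → 0 ≤ K →
      l * Real.log l ≤ c * Real.log N →
      l ^ k ≤ c * (K + Real.log l) * Real.log N ^ (k - 1) →
      ∃ A : Finset (ZMod N), A.Nonempty ∧ l ≤ Real.log ((N : ℝ) / (A.card : ℝ)) ∧
        Real.log ((N : ℝ) / (A.card : ℝ)) ≤ C * l ∧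
        ∀ (Γ : Finset (ZMod N)) (ε : ℝ), 0 < ε →
          (∀ x : ZMod N,
              (∀ γ ∈ Γ, |((γ * x).val : ℝ) / (N : ℝ)
                - ((round (((γ * x).val : ℝ) / (N : ℝ)) : ℤ) : ℝ)| ≤ ε) →
              0 < Set.ncard {p : (Fin k → ZMod N) × (Fin k → ZMod N) |
                  (∀ i, p.1 i ∈ A) ∧ (∀ i, p.2 i ∈ A) ∧ x = ∑ i, p.1 i - ∑ i, p.2 i} ∧
              Real.exp (-K) * ((A.card : ℝ) ^ (2 * k) / N) ≤
                (Set.ncard {p : (Fin k → ZMod N) × (Fin k → ZMod N) |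
                  (∀ i, p.1 i ∈ A) ∧ (∀ i, p.2 i ∈ A) ∧
                    x = ∑ i, p.1 i - ∑ i, p.2 i} : ℝ)) →
          c * (Real.log ((N : ℝ) / (A.card : ℝ)) * Real.log (Real.log ((N : ℝ) / (A.card : ℝ))))
            ≤ (Γ.card : ℝ) * Real.log (2 + 1 / ε) ∧
          c * Real.log ((N : ℝ) / (A.card : ℝ)) ^ k ≤
            (K + Real.log (Real.log ((N : ℝ) / (A.card : ℝ)))) *
              ((Γ.card : ℝ) * Real.log (2 + 1 / ε)) ^ (k - 1) := by
  obtain ⟨q, hq1, hkq⟩ : ∃ q, 1 ≤ q ∧ k = q + 1 := ⟨k - 1, by omega, by omega⟩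
  have hkq' : k - 1 = q := by omega
  obtain ⟨c1, hc1, C1, hC1, l1, H1⟩ := Pool.H53.BT.fin_main k (by omega)
  obtain ⟨c2, hc2, C2, hC2, l2, H2⟩ := main k hk
  rw [hkq'] at H2 ⊢
  obtain ⟨C, hCdef⟩ : ∃ C : ℝ, C = max C1 C2 := ⟨_, rfl⟩
  have hCC1 : C1 ≤ C := by rw [hCdef]; exact le_max_left _ _
  have hCC2 : C2 ≤ C := by rw [hCdef]; exact le_max_right _ _
  have hC0 : 0 < C := lt_of_lt_of_le hC1 hCC1
  -- large `l`
  have hev1 := (Real.isLittleO_pow_log_id_atTop (n := q + 1)).def (show 0 < c2 / 4 by positivity)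
  rw [Filter.eventually_atTop] at hev1
  obtain ⟨l3, hl3⟩ := hev1
  obtain ⟨c3, hc3⟩ : ∃ c3 : ℝ, c3 = min (1 / 4) (c1 ^ q * c2 / C) := ⟨_, rfl⟩
  have hc3p : 0 < c3 := by rw [hc3]; exact lt_min (by norm_num) (by positivity)
  obtain ⟨c, hcdef⟩ : ∃ c : ℝ, c = min (min c1 c2) c3 := ⟨_, rfl⟩
  have hc0 : 0 < c := by rw [hcdef]; exact lt_min (lt_min hc1 hc2) hc3p
  have hcc1 : c ≤ c1 := by rw [hcdef]; exact (min_le_left _ _).trans (min_le_left _ _)
  have hcc2 : c ≤ c2 := by rw [hcdef]; exact (min_le_left _ _).trans (min_le_right _ _)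
  have hcc3 : c ≤ 1 / 4 := by
    rw [hcdef, hc3]; exact (min_le_right _ _).trans (min_le_left _ _)
  have hcc4 : c ≤ c1 ^ q * c2 / C := by
    rw [hcdef, hc3]; exact (min_le_right _ _).trans (min_le_right _ _)
  refine ⟨c, hc0, C, hC0, max (max l1 l2) (max l3 (max 3 C)), ?_⟩
  intro N hN l K hl hK0 hNl1 hNl2
  have hll1 : l1 ≤ l := ((le_max_left _ _).trans (le_max_left _ _)).trans hl
  have hll2 : l2 ≤ l := ((le_max_right _ _).trans (le_max_left _ _)).trans hl
  have hll3 : l3 ≤ l := ((le_max_left _ _).trans (le_max_right _ _)).trans hl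
  have hl3' : 3 ≤ l :=
    ((le_max_left _ _).trans ((le_max_right _ _).trans (le_max_right _ _))).trans hl
  have hlC : C ≤ l :=
    ((le_max_right _ _).trans ((le_max_right _ _).trans (le_max_right _ _))).trans hl
  have hl0 : 0 < l := by linarith
  have hlog1 : 1 ≤ Real.log l := by
    rw [Real.le_log_iff_exp_le hl0]
    have := Real.exp_one_lt_d9; linarith
  have hlogN : 0 ≤ Real.log N := Real.log_natCast_nonneg N
  have hlogq : Real.log l ^ (q + 1) ≤ c2 / 4 * l := by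
    have h := hl3 l hll3
    simp only [id, Real.norm_eq_abs] at h
    rw [abs_of_nonneg (by positivity), abs_of_pos hl0] at h
    exact h
  by_cases hK : K * Real.log l ^ q ≤ c2 * l
  · -- few popular elements
    have hKl : K ≤ c2 * l := by
      refine le_trans ?_ hK
      calc K = K * 1 := (mul_one _).symm
        _ ≤ K * Real.log l ^ q := mul_le_mul_of_nonneg_left (one_le_pow₀ hlog1) hK0
    obtain ⟨A, hA, hL1, hL2, hA3⟩ := H2 N hN l K hll2 hK0 hKl (by
      refine hNl2.trans ?_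
      apply mul_le_mul_of_nonneg_right _ (by positivity)
      exact mul_le_mul_of_nonneg_right hcc2 (by linarith))
    refine ⟨A, hA, hL1, hL2.trans (mul_le_mul_of_nonneg_right hCC2 hl0.le), ?_⟩
    intro Γ ε hε hB
    have h1 := hA3 Γ ε hε (fun x hx => (hB x hx).2)
    obtain ⟨L, hL⟩ : ∃ L, L = Real.log ((N : ℝ) / (A.card : ℝ)) := ⟨_, rfl⟩
    obtain ⟨D, hD⟩ : ∃ D : ℝ, D = (Γ.card : ℝ) * Real.log (2 + 1 / ε) := ⟨_, rfl⟩
    rw [← hL] at h1 hL1 hL2 ⊢
    rw [← hD] at h1 ⊢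
    have hL0 : 0 < L := by linarith
    have hlogL1 : Real.log l ≤ Real.log L := Real.log_le_log hl0 hL1
    have hlogL2 : Real.log L ≤ 2 * Real.log l := by
      have h2 : L ≤ l ^ 2 := by
        calc L ≤ C2 * l := hL2
          _ ≤ l * l := mul_le_mul_of_nonneg_right (hCC2.trans hlC) hl0.le
          _ = l ^ 2 := by ring
      have h3 := Real.log_le_log hL0 h2
      rw [Real.log_pow] at h3
      exact_mod_cast h3
    have hD0 : 0 ≤ D := by
      rw [hD]
      apply mul_nonneg (Nat.cast_nonneg _)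
      apply Real.log_nonneg
      have : 0 < 1 / ε := by positivity
      linarith
    have hB0 : 0 < K + Real.log L := by linarith
    constructor
    · have h4 := cb_root q hq1 L l D (K + Real.log L) c2 hl0 hL1 (by linarith) hD0 hc2
        (by rw [← hkq]; exact h1) (by
          have h5 : Real.log L * Real.log l ^ q ≤ 2 * (c2 / 4 * l) := by
            calc Real.log L * Real.log l ^ q ≤ 2 * Real.log l * Real.log l ^ q :=
                  mul_le_mul_of_nonneg_right hlogL2 (by positivity)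
              _ = 2 * Real.log l ^ (q + 1) := by ring
              _ ≤ 2 * (c2 / 4 * l) := by linarith
          have h6 : 0 < c2 * l := by positivity
          rw [add_mul]
          linarith)
      calc c * (L * Real.log L) ≤ 1 / 4 * (L * (2 * Real.log l)) := by
            apply mul_le_mul hcc3 _ _ (by norm_num)
            · exact mul_le_mul_of_nonneg_left hlogL2 hL0.le
            · exact mul_nonneg hL0.le (by linarith)
        _ = 1 / 2 * (L * Real.log l) := by ring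
        _ ≤ D := h4
    · refine le_trans ?_ h1
      exact mul_le_mul_of_nonneg_right hcc2 (by positivity)
  · -- all elements
    push Not at hK
    obtain ⟨A, hA, hL1, hL2, hA3⟩ := H1 N hN l hll1 (hNl1.trans
      (mul_le_mul_of_nonneg_right hcc1 hlogN))
    refine ⟨A, hA, hL1, hL2.trans (mul_le_mul_of_nonneg_right hCC1 hl0.le), ?_⟩
    intro Γ ε hε hB
    have h1 := hA3 Γ ε hε (fun x hx => by
      have h2 := (hB x hx).1
      obtain ⟨p, hp⟩ := Set.nonempty_of_ncard_ne_zero h2.ne'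
      exact ⟨p.1, p.2, hp.1, hp.2.1, hp.2.2⟩)
    obtain ⟨L, hL⟩ : ∃ L, L = Real.log ((N : ℝ) / (A.card : ℝ)) := ⟨_, rfl⟩
    obtain ⟨D, hD⟩ : ∃ D : ℝ, D = (Γ.card : ℝ) * Real.log (2 + 1 / ε) := ⟨_, rfl⟩
    rw [← hL] at h1 hL1 hL2 ⊢
    rw [← hD] at h1 ⊢
    have hL0 : 0 < L := by linarith
    have hlogL1 : Real.log l ≤ Real.log L := Real.log_le_log hl0 hL1
    have hLlog : 0 ≤ L * Real.log L := mul_nonneg hL0.le (by linarith)
    constructor
    · exact le_trans (mul_le_mul_of_nonneg_right hcc1 hLlog) h1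
    · have h2 : (c1 * (L * Real.log L)) ^ q ≤ D ^ q :=
        pow_le_pow_left₀ (mul_nonneg hc1.le hLlog) h1 q
      have h3 : Real.log l ^ q ≤ Real.log L ^ q := pow_le_pow_left₀ (by linarith) hlogL1 q
      have h4 : c2 * l ≤ K * Real.log L ^ q :=
        hK.le.trans (mul_le_mul_of_nonneg_left h3 hK0)
      have h5 : L ≤ C * l := hL2.trans (mul_le_mul_of_nonneg_right hCC1 hl0.le)
      rw [hkq]
      calc c * L ^ (q + 1) ≤ c1 ^ q * c2 / C * L ^ (q + 1) :=
            mul_le_mul_of_nonneg_right hcc4 (by positivity)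
        _ = c1 ^ q * L ^ q * (c2 * (L / C)) := by ring
        _ ≤ c1 ^ q * L ^ q * (c2 * l) := by
            apply mul_le_mul_of_nonneg_left _ (by positivity)
            apply mul_le_mul_of_nonneg_left _ hc2.le
            rw [div_le_iff₀ hC0, mul_comm]
            exact h5
        _ ≤ c1 ^ q * L ^ q * (K * Real.log L ^ q) :=
            mul_le_mul_of_nonneg_left h4 (by positivity)
        _ = K * (c1 * (L * Real.log L)) ^ q := by ring
        _ ≤ K * D ^ q := mul_le_mul_of_nonneg_left h2 hK0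
        _ ≤ (K + Real.log L) * D ^ q := by
            apply mul_le_mul_of_nonneg_right _ (by
              refine le_trans ?_ h2
              exact pow_nonneg (mul_nonneg hc1.le hLlog) q)
            linarith

end Pool.H15.PB
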