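import Mathlib

set_option autoImplicit false

/-!
Riesz products over the frequencies `16 ^ j` of `ZMod N`.
-/

namespace Pool.H15.PB

/-- The phase `2 π 16 ^ j x / N`. -/
noncomputable def th (N : ℕ) (j : ℕ) (x : ZMod N) : ℝ :=
  2 * Real.pi * (16 ^ j * (x.val : ℝ) / N)

/-- The Riesz product `∏_{j < d} (1 + 2 b cos (2 π 16 ^ j x / N))`. -/
noncomputable def F (N d : ℕ) (b : ℝ) (x : ZMod N) : ℝ :=
  ∏ j : Fin d, (1 + 2 * b * Real.cos (th N j x))

/-- The sum `∑_{j < d} cos (2 π 16 ^ j x / N)`. -/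
noncomputable def Sg (N d : ℕ) (x : ZMod N) : ℝ :=
  ∑ j : Fin d, Real.cos (th N j x)

/-- The phase may be computed from any integer representative. -/
theorem cos_th (N : ℕ) (hN : 0 < N) (j : ℕ) (x : ZMod N) (m : ℤ) (hm : (m : ZMod N) = x) :
    Real.cos (th N j x) = Real.cos (2 * Real.pi * (16 ^ j * (m : ℝ) / N)) := by
  have : NeZero N := ⟨hN.ne'⟩
  have h1 : ((x.val : ℤ) : ZMod N) = (m : ZMod N) := by
    rw [hm]; simp
  rw [ZMod.intCast_eq_intCast_iff_dvd_sub] at h1
  obtain ⟨t, ht⟩ := h1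
  have hN' : (N : ℝ) ≠ 0 := by exact_mod_cast hN.ne'
  have h2 : (m : ℝ) = (x.val : ℝ) + N * t := by
    have : (m : ℤ) = (x.val : ℤ) + N * t := by linarith
    exact_mod_cast this
  have h3 : 2 * Real.pi * (16 ^ j * (m : ℝ) / N) = th N j x + ((16 ^ j * t : ℤ) : ℝ) * (2 * Real.pi) := by
    unfold th
    rw [h2]
    push_cast
    field_simp
  rw [h3, Real.cos_add_int_mul_two_pi]

theorem F_neg (N : ℕ) (hN : 0 < N) (d : ℕ) (b : ℝ) (x : ZMod N) : F N d b (-x) = F N d b x := by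
  have : NeZero N := ⟨hN.ne'⟩
  unfold F
  apply Finset.prod_congr rfl
  intro j _
  rw [cos_th N hN j (-x) (-(x.val : ℤ)) (by push_cast; simp),
    cos_th N hN j x (x.val : ℤ) (by simp)]
  congr 2
  rw [← Real.cos_neg]
  congr 1
  push_cast
  ring

theorem F_nonneg (N d : ℕ) (b : ℝ) (hb : |b| ≤ 1 / 2) (x : ZMod N) : 0 ≤ F N d b x := by
  unfold F
  apply Finset.prod_nonneg
  intro j _
  have h1 := Real.abs_cos_le_one (th N j x)
  have h2 : |2 * b * Real.cos (th N j x)| ≤ 1 := by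
    rw [abs_mul, abs_mul, abs_two]
    calc 2 * |b| * |Real.cos (th N j x)| ≤ 2 * (1 / 2) * 1 := by
          apply mul_le_mul _ h1 (abs_nonneg _) (by norm_num)
          linarith
      _ = 1 := by norm_num
  have h3 := (abs_le.1 h2).1
  linarith

theorem F_le_exp (N d : ℕ) (b : ℝ) (hb : |b| ≤ 1 / 2) (x : ZMod N) :
    F N d b x ≤ Real.exp (2 * b * Sg N d x) := by
  unfold F Sg
  rw [Finset.mul_sum, Real.exp_sum]
  apply Finset.prod_le_prod
  · intro j _
    have h1 := Real.abs_cos_le_one (th N j x)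
    have h2 : |2 * b * Real.cos (th N j x)| ≤ 1 := by
      rw [abs_mul, abs_mul, abs_two]
      calc 2 * |b| * |Real.cos (th N j x)| ≤ 2 * (1 / 2) * 1 := by
            apply mul_le_mul _ h1 (abs_nonneg _) (by norm_num)
            linarith
        _ = 1 := by norm_num
    have h3 := (abs_le.1 h2).1
    linarith
  · intro j _
    have := Real.add_one_le_exp (2 * b * Real.cos (th N j x))
    linarith

theorem F_zero (N d : ℕ) (x : ZMod N) : F N d 0 x = 1 := by
  unfold F
  simp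

end Pool.H15.PB
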