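import Pool.Agent.H15.PB.LS
import Pool.Agent.H15.PB.BP

set_option autoImplicit false

/-!
Assembly of the popular lower bound.
-/

namespace Pool.H15.PB

theorem fn_count (N d : ℕ) (hN : 16 ^ (d + 1) ≤ N) [NeZero N] (b : ℝ)
    (A : Finset (ZMod N)) (κ : ℝ) (hκ : 0 < κ) (hb : |b| ≤ 1 / 2)
    (hA : ∀ x ∈ A, 1 ≤ κ * F N d b x)
    (k : ℕ) (hk : 1 ≤ k) (z : ZMod N) :
    (Set.ncard {p : (Fin k → ZMod N) × (Fin k → ZMod N) |
      (∀ i, p.1 i ∈ A) ∧ (∀ i, p.2 i ∈ A) ∧ z = ∑ i, p.1 i - ∑ i, p.2 i} : ℝ) ≤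
      κ ^ (2 * k) * ((N : ℝ) ^ (2 * k - 1) * F N d (b ^ (2 * k)) z) := by
  classical
  have hset : {p : (Fin k → ZMod N) × (Fin k → ZMod N) |
      (∀ i, p.1 i ∈ A) ∧ (∀ i, p.2 i ∈ A) ∧ z = ∑ i, p.1 i - ∑ i, p.2 i} =
      ((Finset.univ.filter (fun p : (Fin k → ZMod N) × (Fin k → ZMod N) =>
        (∀ i, p.1 i ∈ A) ∧ (∀ i, p.2 i ∈ A) ∧ z = ∑ i, p.1 i - ∑ i, p.2 i) :
        Finset ((Fin k → ZMod N) × (Fin k → ZMod N))) : Set _) := by
    ext p
    simp only [Finset.coe_filter, Finset.mem_univ, true_and]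
  rw [hset, Set.ncard_coe_finset, ← rz_count2 N d hN b k hk z, Finset.mul_sum]
  have hF : ∀ x, 0 ≤ F N d b x := fun x => F_nonneg N d b hb x
  calc ((Finset.univ.filter (fun p : (Fin k → ZMod N) × (Fin k → ZMod N) =>
        (∀ i, p.1 i ∈ A) ∧ (∀ i, p.2 i ∈ A) ∧ z = ∑ i, p.1 i - ∑ i, p.2 i)).card : ℝ)
      = ∑ p ∈ Finset.univ.filter (fun p : (Fin k → ZMod N) × (Fin k → ZMod N) =>
        (∀ i, p.1 i ∈ A) ∧ (∀ i, p.2 i ∈ A) ∧ z = ∑ i, p.1 i - ∑ i, p.2 i), (1 : ℝ) := by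
        rw [Finset.sum_const, nsmul_eq_mul, mul_one]
    _ ≤ ∑ p ∈ Finset.univ.filter (fun p : (Fin k → ZMod N) × (Fin k → ZMod N) =>
        (∀ i, p.1 i ∈ A) ∧ (∀ i, p.2 i ∈ A) ∧ z = ∑ i, p.1 i - ∑ i, p.2 i),
        κ ^ (2 * k) * (if z = ∑ i, p.1 i - ∑ i, p.2 i then
          (∏ i, F N d b (p.1 i)) * ∏ i, F N d b (p.2 i) else 0) := by
        apply Finset.sum_le_sum
        intro p hp
        obtain ⟨_, h1, h2, h3⟩ := Finset.mem_filter.1 hp
        rw [if_pos h3]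
        have e1 : κ ^ (2 * k) * ((∏ i, F N d b (p.1 i)) * ∏ i, F N d b (p.2 i)) =
            (∏ i, (κ * F N d b (p.1 i))) * ∏ i, (κ * F N d b (p.2 i)) := by
          rw [Finset.prod_mul_distrib, Finset.prod_mul_distrib, Finset.prod_const,
            Finset.card_univ, Fintype.card_fin, two_mul, pow_add]
          ring
        rw [e1]
        have e2 : (1 : ℝ) ≤ ∏ i, (κ * F N d b (p.1 i)) := by
          calc (1 : ℝ) = ∏ i : Fin k, (1 : ℝ) := by rw [Finset.prod_const_one]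
            _ ≤ _ := Finset.prod_le_prod (fun _ _ => zero_le_one) (fun i _ => hA _ (h1 i))
        have e3 : (1 : ℝ) ≤ ∏ i, (κ * F N d b (p.2 i)) := by
          calc (1 : ℝ) = ∏ i : Fin k, (1 : ℝ) := by rw [Finset.prod_const_one]
            _ ≤ _ := Finset.prod_le_prod (fun _ _ => zero_le_one) (fun i _ => hA _ (h2 i))
        calc (1 : ℝ) = 1 * 1 := (one_mul _).symm
          _ ≤ _ := mul_le_mul e2 e3 zero_le_one (zero_le_one.trans e2)
    _ ≤ ∑ p : (Fin k → ZMod N) × (Fin k → ZMod N),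
        κ ^ (2 * k) * (if z = ∑ i, p.1 i - ∑ i, p.2 i then
          (∏ i, F N d b (p.1 i)) * ∏ i, F N d b (p.2 i) else 0) := by
        apply Finset.sum_le_sum_of_subset_of_nonneg (Finset.filter_subset _ _)
        intro p _ _
        apply mul_nonneg (by positivity)
        split_ifs
        · exact mul_nonneg (Finset.prod_nonneg fun _ _ => hF _)
            (Finset.prod_nonneg fun _ _ => hF _)
        · exact le_rfl

theorem fn_core (k N d : ℕ) (hk : 1 ≤ k) (hN : 32 ^ (d + 1) ≤ N) (hd : 0 < d) (b : ℝ)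
    (hb0 : 0 < b) (hb : b ≤ 1 / 2) (M : ℝ) (hM : M = b ^ 2 * d) (hM96 : 96 ≤ M) :
    ∃ A : Finset (ZMod N), A.Nonempty ∧
      M / 32 ≤ Real.log ((N : ℝ) / (A.card : ℝ)) ∧
      Real.log ((N : ℝ) / (A.card : ℝ)) ≤ 2 * M + 2 + Real.log (8 * (2 * M + 4)) ∧
      ∀ (Γ : Finset (ZMod N)) (ε : ℝ), 0 < ε →
        (Γ.card : ℝ) * Real.log (2 + 1 / ε) ≤ d / 50 →
        ∃ x : ZMod N, (∀ γ ∈ Γ, |((γ * x).val : ℝ) / (N : ℝ)
              - ((round (((γ * x).val : ℝ) / (N : ℝ)) : ℤ) : ℝ)| ≤ ε) ∧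
          (Set.ncard {p : (Fin k → ZMod N) × (Fin k → ZMod N) |
            (∀ i, p.1 i ∈ A) ∧ (∀ i, p.2 i ∈ A) ∧ x = ∑ i, p.1 i - ∑ i, p.2 i} : ℝ) ≤
          (8 * Real.exp 1 * (2 * M + 4)) ^ (2 * k) * Real.exp (-(b ^ (2 * k) * d / 2)) *
            ((A.card : ℝ) ^ (2 * k) / N) := by
  have hN16 : 16 ^ (d + 1) ≤ N := le_trans (Nat.pow_le_pow_left (by norm_num) _) hN
  have hN0 : 0 < N := lt_of_lt_of_le (by positivity) hN
  have : NeZero N := ⟨hN0.ne'⟩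
  have hNr : (0 : ℝ) < N := by exact_mod_cast hN0
  have hbabs : |b| ≤ 1 / 2 := by rw [abs_of_pos hb0]; exact hb
  obtain ⟨A, κ, hAne, hκ, hA1, hA2, hA3, hA4⟩ := ls_main N d hN16 b hb0 hb M hM hM96
  have hAc : (0 : ℝ) < A.card := by exact_mod_cast Finset.card_pos.2 hAne
  refine ⟨A, hAne, ?_, ?_, ?_⟩
  · rw [Real.le_log_iff_exp_le (by positivity), le_div_iff₀ hAc]
    calc Real.exp (M / 32) * (A.card : ℝ) ≤ Real.exp (M / 32) * (N * Real.exp (-(M / 32))) :=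
          mul_le_mul_of_nonneg_left hA2 (Real.exp_pos _).le
      _ = N * (Real.exp (M / 32) * Real.exp (-(M / 32))) := by ring
      _ = N := by rw [← Real.exp_add, add_neg_cancel, Real.exp_zero, mul_one]
  · have h1 : (N : ℝ) / A.card ≤ 8 * (2 * M + 4) * Real.exp (2 * M + 2) := by
      rw [div_le_iff₀ hAc, mul_comm]; exact hA4
    refine (Real.log_le_log (by positivity) h1).trans (le_of_eq ?_)
    rw [Real.log_mul (by positivity) (Real.exp_pos _).ne', Real.log_exp]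
    ring
  · intro Γ ε hε hD
    obtain ⟨u, v, huv, hB⟩ := bp_main N d hN0 hd Γ ε hε hD
    refine ⟨X N u - X N v, hB, ?_⟩
    have h1 := fn_count N d hN16 b A κ hκ hbabs hA1 k hk (X N u - X N v)
    have hS := tg_sum N d hN u v huv
    have hbk : |b ^ (2 * k)| ≤ 1 / 2 := by
      rw [abs_pow, two_mul, pow_add]
      have h2 : |b| ^ k ≤ 1 := pow_le_one₀ (abs_nonneg _) (by linarith)
      have h3 : |b| ^ k ≤ 1 / 2 := by
        calc |b| ^ k ≤ |b| ^ 1 := pow_le_pow_of_le_one (abs_nonneg _) (by linarith) hk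
          _ = |b| := pow_one _
          _ ≤ 1 / 2 := hbabs
      calc |b| ^ k * |b| ^ k ≤ 1 / 2 * 1 :=
            mul_le_mul h3 h2 (by positivity) (by norm_num)
        _ = 1 / 2 := mul_one _
    have hF := F_le_exp N d (b ^ (2 * k)) hbk (X N u - X N v)
    have hF2 : F N d (b ^ (2 * k)) (X N u - X N v) ≤ Real.exp (-(b ^ (2 * k) * d / 2)) := by
      refine hF.trans ?_
      rw [Real.exp_le_exp]
      have h4 : 0 ≤ 2 * b ^ (2 * k) := by positivity
      calc 2 * b ^ (2 * k) * Sg N d (X N u - X N v) ≤ 2 * b ^ (2 * k) * (-(d / 4)) :=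
            mul_le_mul_of_nonneg_left hS h4
        _ = _ := by ring
    refine h1.trans ?_
    have e1 : κ ^ (2 * k) * ((N : ℝ) ^ (2 * k - 1) * F N d (b ^ (2 * k)) (X N u - X N v)) =
        (κ * N) ^ (2 * k) * F N d (b ^ (2 * k)) (X N u - X N v) / N := by
      rw [mul_pow]
      have : (N : ℝ) ^ (2 * k) = N ^ (2 * k - 1) * N := by
        rw [← pow_succ]; congr 1; omega
      rw [this]
      field_simp
    rw [e1]
    have e2 : (κ * N) ^ (2 * k) ≤ (A.card * (8 * Real.exp 1 * (2 * M + 4))) ^ (2 * k) :=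
      pow_le_pow_left₀ (by positivity) hA3 _
    calc (κ * N) ^ (2 * k) * F N d (b ^ (2 * k)) (X N u - X N v) / N
        ≤ (A.card * (8 * Real.exp 1 * (2 * M + 4))) ^ (2 * k) *
          Real.exp (-(b ^ (2 * k) * d / 2)) / N := by
          apply div_le_div_of_nonneg_right _ hNr.le
          exact mul_le_mul e2 hF2 (F_nonneg N d _ hbk _) (by positivity)
      _ = _ := by rw [mul_pow]; ring

end Pool.H15.PB
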