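import Pool.Agent.H15.PB.RZ

set_option autoImplicit false

/-!
The level set of a Riesz product.
-/

namespace Pool.H15.PB

theorem th_zero (N j : ℕ) : th N j 0 = 0 := by
  unfold th
  rcases Nat.eq_zero_or_pos N with h | h
  · subst h; simp
  · have : NeZero N := ⟨h.ne'⟩
    rw [ZMod.val_zero]; simp

theorem F_at_zero (N d : ℕ) (b : ℝ) : F N d b 0 = (1 + 2 * b) ^ d := by
  unfold F
  simp only [th_zero, Real.cos_zero, mul_one]
  rw [Finset.prod_const, Finset.card_univ, Fintype.card_fin]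

theorem ls_sum (N d : ℕ) (hN : 16 ^ (d + 1) ≤ N) [NeZero N] (b : ℝ) :
    ∑ y : ZMod N, F N d b y = N := by
  have h := rz_conv N d hN 0 b 0
  simp only [F_zero, one_mul, zero_mul, mul_one] at h
  exact h

theorem ls_prod (N d : ℕ) (hN : 16 ^ (d + 1) ≤ N) [NeZero N] (a b : ℝ) :
    ∑ y : ZMod N, F N d a y * F N d b y = N * (1 + 2 * (a * b)) ^ d := by
  have hN0 : 0 < N := lt_of_lt_of_le (by positivity) hN
  have h := rz_conv N d hN a b 0
  rw [F_at_zero] at h
  rw [← h]
  apply Finset.sum_congr rfl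
  intro y _
  rw [zero_sub, F_neg N hN0]

theorem ls_exp_one (t c : ℝ) (ht : |t| ≤ 1 / 2) (hc : |c| ≤ 1) :
    Real.exp (t * c) ≤ (1 + 2 * t ^ 2) * (1 + t * c) := by
  have h1 : |t * c| ≤ 1 / 2 := by
    rw [abs_mul]
    calc |t| * |c| ≤ 1 / 2 * 1 := mul_le_mul ht hc (abs_nonneg _) (by norm_num)
      _ = 1 / 2 := mul_one _
  have h2 := Real.abs_exp_sub_one_sub_id_le (x := t * c) (by linarith)
  have h3 := (abs_le.1 h2).2
  have h4 : (t * c) ^ 2 ≤ t ^ 2 := by
    rw [mul_pow]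
    have : c ^ 2 ≤ 1 := by
      rw [← sq_abs]; exact pow_le_one₀ (abs_nonneg _) hc
    calc t ^ 2 * c ^ 2 ≤ t ^ 2 * 1 := mul_le_mul_of_nonneg_left this (sq_nonneg _)
      _ = t ^ 2 := mul_one _
  have h5 := (abs_le.1 h1).1
  have h6 : t ^ 2 ≤ 2 * t ^ 2 * (1 + t * c) := by
    have h7 : (1 / 2 : ℝ) ≤ 1 + t * c := by linarith
    have h8 : 2 * t ^ 2 * (1 / 2) ≤ 2 * t ^ 2 * (1 + t * c) :=
      mul_le_mul_of_nonneg_left h7 (by positivity)
    linarith
  have h9 : (1 + 2 * t ^ 2) * (1 + t * c) = 1 + t * c + 2 * t ^ 2 * (1 + t * c) := by ring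
  rw [h9]
  linarith

theorem ls_exp (N d : ℕ) (t : ℝ) (ht : |t| ≤ 1 / 2) (x : ZMod N) :
    Real.exp (t * Sg N d x) ≤ (1 + 2 * t ^ 2) ^ d * F N d (t / 2) x := by
  unfold Sg F
  rw [Finset.mul_sum, Real.exp_sum]
  have h1 : (1 + 2 * t ^ 2) ^ d * ∏ j : Fin d, (1 + 2 * (t / 2) * Real.cos (th N j x)) =
      ∏ j : Fin d, ((1 + 2 * t ^ 2) * (1 + t * Real.cos (th N j x))) := by
    rw [Finset.prod_mul_distrib, Finset.prod_const, Finset.card_univ, Fintype.card_fin]
    congr 1
    apply Finset.prod_congr rfl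
    intro j _
    ring
  rw [h1]
  apply Finset.prod_le_prod
  · intro j _; exact (Real.exp_pos _).le
  · intro j _
    exact ls_exp_one t _ ht (Real.abs_cos_le_one _)

/-- Few points have large `Sg`. -/
theorem ls_unif (N d : ℕ) (hN : 16 ^ (d + 1) ≤ N) [NeZero N] (b : ℝ) (hb0 : 0 < b)
    (hb : b ≤ 1 / 2) :
    ((Finset.univ.filter (fun x : ZMod N => b * d / 2 ≤ Sg N d x)).card : ℝ) ≤
      N * Real.exp (-(b ^ 2 * d / 32)) := by
  obtain ⟨t, ht⟩ : ∃ t : ℝ, t = b / 8 := ⟨_, rfl⟩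
  have ht0 : 0 < t := by rw [ht]; positivity
  have ht1 : |t| ≤ 1 / 2 := by rw [abs_of_pos ht0, ht]; linarith
  have h1 : ((Finset.univ.filter (fun x : ZMod N => b * d / 2 ≤ Sg N d x)).card : ℝ) *
      Real.exp (t * (b * d / 2)) ≤ N * Real.exp (2 * t ^ 2 * d) := by
    calc ((Finset.univ.filter (fun x : ZMod N => b * d / 2 ≤ Sg N d x)).card : ℝ) *
        Real.exp (t * (b * d / 2))
        = ∑ x ∈ Finset.univ.filter (fun x : ZMod N => b * d / 2 ≤ Sg N d x),
          Real.exp (t * (b * d / 2)) := by rw [Finset.sum_const, nsmul_eq_mul]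
      _ ≤ ∑ x ∈ Finset.univ.filter (fun x : ZMod N => b * d / 2 ≤ Sg N d x),
          (1 + 2 * t ^ 2) ^ d * F N d (t / 2) x := by
          apply Finset.sum_le_sum
          intro x hx
          refine le_trans ?_ (ls_exp N d t ht1 x)
          rw [Real.exp_le_exp]
          exact mul_le_mul_of_nonneg_left (Finset.mem_filter.1 hx).2 ht0.le
      _ ≤ ∑ x : ZMod N, (1 + 2 * t ^ 2) ^ d * F N d (t / 2) x := by
          apply Finset.sum_le_sum_of_subset_of_nonneg (Finset.filter_subset _ _)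
          intro x _ _
          apply mul_nonneg (by positivity)
          apply F_nonneg
          rw [abs_div, abs_two]
          linarith
      _ = (1 + 2 * t ^ 2) ^ d * N := by rw [← Finset.mul_sum, ls_sum N d hN]
      _ ≤ Real.exp (2 * t ^ 2 * d) * N := by
          apply mul_le_mul_of_nonneg_right _ (Nat.cast_nonneg _)
          have h2 : 1 + 2 * t ^ 2 ≤ Real.exp (2 * t ^ 2) := by
            have := Real.add_one_le_exp (2 * t ^ 2); linarith
          calc (1 + 2 * t ^ 2) ^ d ≤ Real.exp (2 * t ^ 2) ^ d :=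
                pow_le_pow_left₀ (by positivity) h2 d
            _ = Real.exp (2 * t ^ 2 * d) := by rw [← Real.exp_nat_mul]; congr 1; ring
      _ = N * Real.exp (2 * t ^ 2 * d) := mul_comm _ _
  have h3 : Real.exp (2 * t ^ 2 * d) = Real.exp (-(b ^ 2 * d / 32)) * Real.exp (t * (b * d / 2)) := by
    rw [← Real.exp_add, ht]; congr 1; ring
  rw [h3, ← mul_assoc] at h1
  exact le_of_mul_le_mul_right h1 (Real.exp_pos _)

/-- Little mass of `F` on the points with small `Sg`. -/
theorem ls_low (N d : ℕ) (hN : 16 ^ (d + 1) ≤ N) [NeZero N] (b : ℝ) (hb0 : 0 < b)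
    (hb : b ≤ 1 / 2) :
    ∑ x ∈ Finset.univ.filter (fun x : ZMod N => ¬ (b * d / 2 ≤ Sg N d x)), F N d b x ≤
      N * Real.exp (-(b ^ 2 * d / 32)) := by
  obtain ⟨t, ht⟩ : ∃ t : ℝ, t = b / 8 := ⟨_, rfl⟩
  have ht0 : 0 < t := by rw [ht]; positivity
  have ht1 : |-t| ≤ 1 / 2 := by rw [abs_neg, abs_of_pos ht0, ht]; linarith
  have hFb : ∀ x, 0 ≤ F N d b x := fun x => F_nonneg N d b (by rw [abs_of_pos hb0]; exact hb) x
  have ht2 : |(-t) / 2| ≤ 1 / 2 := by
    rw [abs_div, abs_two]; linarith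
  calc ∑ x ∈ Finset.univ.filter (fun x : ZMod N => ¬ (b * d / 2 ≤ Sg N d x)), F N d b x
      ≤ ∑ x ∈ Finset.univ.filter (fun x : ZMod N => ¬ (b * d / 2 ≤ Sg N d x)),
        Real.exp (t * (b * d / 2)) * ((1 + 2 * t ^ 2) ^ d * (F N d ((-t) / 2) x * F N d b x)) := by
        apply Finset.sum_le_sum
        intro x hx
        have hx2 : Sg N d x < b * d / 2 := not_le.1 (Finset.mem_filter.1 hx).2
        have h1 : 1 ≤ Real.exp (t * (b * d / 2)) * Real.exp (-t * Sg N d x) := by
          rw [← Real.exp_add]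
          apply Real.one_le_exp
          have : 0 ≤ t * (b * d / 2 - Sg N d x) := mul_nonneg ht0.le (by linarith)
          linarith
        have h2 := ls_exp N d (-t) ht1 x
        rw [neg_sq] at h2
        calc F N d b x = 1 * F N d b x := (one_mul _).symm
          _ ≤ (Real.exp (t * (b * d / 2)) * Real.exp (-t * Sg N d x)) * F N d b x :=
              mul_le_mul_of_nonneg_right h1 (hFb x)
          _ ≤ (Real.exp (t * (b * d / 2)) * ((1 + 2 * t ^ 2) ^ d * F N d ((-t) / 2) x)) *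
              F N d b x := by
              apply mul_le_mul_of_nonneg_right _ (hFb x)
              exact mul_le_mul_of_nonneg_left h2 (Real.exp_pos _).le
          _ = _ := by ring
    _ ≤ ∑ x : ZMod N,
        Real.exp (t * (b * d / 2)) * ((1 + 2 * t ^ 2) ^ d * (F N d ((-t) / 2) x * F N d b x)) := by
        apply Finset.sum_le_sum_of_subset_of_nonneg (Finset.filter_subset _ _)
        intro x _ _
        apply mul_nonneg (Real.exp_pos _).le
        apply mul_nonneg (by positivity)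
        exact mul_nonneg (F_nonneg N d _ ht2 x) (hFb x)
    _ = Real.exp (t * (b * d / 2)) * ((1 + 2 * t ^ 2) ^ d *
        (N * (1 + 2 * ((-t) / 2 * b)) ^ d)) := by
        rw [← Finset.mul_sum, ← Finset.mul_sum, ls_prod N d hN]
    _ ≤ Real.exp (t * (b * d / 2)) * (Real.exp (2 * t ^ 2 * d) *
        (N * Real.exp (-(t * b) * d))) := by
        apply mul_le_mul_of_nonneg_left _ (Real.exp_pos _).le
        have h2 : 1 + 2 * t ^ 2 ≤ Real.exp (2 * t ^ 2) := by
          have := Real.add_one_le_exp (2 * t ^ 2); linarith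
        have h3 : (1 + 2 * t ^ 2) ^ d ≤ Real.exp (2 * t ^ 2 * d) := by
          calc (1 + 2 * t ^ 2) ^ d ≤ Real.exp (2 * t ^ 2) ^ d :=
                pow_le_pow_left₀ (by positivity) h2 d
            _ = Real.exp (2 * t ^ 2 * d) := by rw [← Real.exp_nat_mul]; congr 1; ring
        have h4 : 1 + 2 * ((-t) / 2 * b) ≤ Real.exp (-(t * b)) := by
          have := Real.add_one_le_exp (-(t * b)); linarith
        have h5 : 0 ≤ 1 + 2 * ((-t) / 2 * b) := by
          have : t * b ≤ 1 := by rw [ht]; nlinarith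
          linarith
        have h6 : (1 + 2 * ((-t) / 2 * b)) ^ d ≤ Real.exp (-(t * b) * d) := by
          calc (1 + 2 * ((-t) / 2 * b)) ^ d ≤ Real.exp (-(t * b)) ^ d :=
                pow_le_pow_left₀ h5 h4 d
            _ = Real.exp (-(t * b) * d) := by rw [← Real.exp_nat_mul]; congr 1; ring
        apply mul_le_mul h3 _ _ (Real.exp_pos _).le
        · exact mul_le_mul_of_nonneg_left h6 (Nat.cast_nonneg _)
        · exact mul_nonneg (Nat.cast_nonneg _) (pow_nonneg h5 _)
    _ = N * Real.exp (-(b ^ 2 * d / 32)) := by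
        have : Real.exp (-(b ^ 2 * d / 32)) = Real.exp (t * (b * d / 2)) *
            (Real.exp (2 * t ^ 2 * d) * Real.exp (-(t * b) * d)) := by
          rw [← Real.exp_add, ← Real.exp_add, ht]; congr 1; ring
        rw [this]; ring

theorem ls_high (N d : ℕ) (hN : 16 ^ (d + 1) ≤ N) [NeZero N] (b : ℝ) (hb0 : 0 < b)
    (hb : b ≤ 1 / 2) :
    ∑ x ∈ Finset.univ.filter (fun x : ZMod N => ¬ (F N d b x < 2 * Real.exp (2 * (b ^ 2 * d)))),
      F N d b x ≤ N / 2 := by
  have hFb : ∀ x, 0 ≤ F N d b x := fun x => F_nonneg N d b (by rw [abs_of_pos hb0]; exact hb) x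
  obtain ⟨E, hE⟩ : ∃ E : ℝ, E = Real.exp (2 * (b ^ 2 * d)) := ⟨_, rfl⟩
  have hE0 : 0 < E := by rw [hE]; exact Real.exp_pos _
  rw [← hE]
  have h1 : (∑ x ∈ Finset.univ.filter (fun x : ZMod N => ¬ (F N d b x < 2 * E)),
      F N d b x) * (2 * E) ≤ N * E := by
    calc (∑ x ∈ Finset.univ.filter (fun x : ZMod N => ¬ (F N d b x < 2 * E)),
        F N d b x) * (2 * E)
        = ∑ x ∈ Finset.univ.filter (fun x : ZMod N => ¬ (F N d b x < 2 * E)),
          F N d b x * (2 * E) := by rw [Finset.sum_mul]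
      _ ≤ ∑ x ∈ Finset.univ.filter (fun x : ZMod N => ¬ (F N d b x < 2 * E)),
          F N d b x * F N d b x := by
          apply Finset.sum_le_sum
          intro x hx
          exact mul_le_mul_of_nonneg_left (not_lt.1 (Finset.mem_filter.1 hx).2) (hFb x)
      _ ≤ ∑ x : ZMod N, F N d b x * F N d b x := by
          apply Finset.sum_le_sum_of_subset_of_nonneg (Finset.filter_subset _ _)
          intro x _ _
          exact mul_nonneg (hFb x) (hFb x)
      _ = N * (1 + 2 * (b * b)) ^ d := ls_prod N d hN b b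
      _ ≤ N * E := by
          apply mul_le_mul_of_nonneg_left _ (Nat.cast_nonneg _)
          rw [hE]
          have h2 : 1 + 2 * (b * b) ≤ Real.exp (2 * b ^ 2) := by
            have := Real.add_one_le_exp (2 * b ^ 2)
            calc 1 + 2 * (b * b) = 2 * b ^ 2 + 1 := by ring
              _ ≤ _ := this
          calc (1 + 2 * (b * b)) ^ d ≤ Real.exp (2 * b ^ 2) ^ d :=
                pow_le_pow_left₀ (by positivity) h2 d
            _ = Real.exp (2 * (b ^ 2 * d)) := by rw [← Real.exp_nat_mul]; congr 1; ring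
  have h2 : (∑ x ∈ Finset.univ.filter (fun x : ZMod N => ¬ (F N d b x < 2 * E)),
      F N d b x) * (2 * E) ≤ (N / 2 : ℝ) * (2 * E) := by
    refine h1.trans (le_of_eq ?_); ring
  exact le_of_mul_le_mul_right h2 (by positivity)

theorem ls_quarter (N d : ℕ) [NeZero N] (b : ℝ) :
    ∑ x ∈ Finset.univ.filter (fun x : ZMod N => ¬ (1 / 4 ≤ F N d b x)), F N d b x ≤ N / 4 := by
  calc ∑ x ∈ Finset.univ.filter (fun x : ZMod N => ¬ (1 / 4 ≤ F N d b x)), F N d b x
      ≤ ∑ x ∈ Finset.univ.filter (fun x : ZMod N => ¬ (1 / 4 ≤ F N d b x)), (1 / 4 : ℝ) := by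
        apply Finset.sum_le_sum
        intro x hx
        exact (not_le.1 (Finset.mem_filter.1 hx).2).le
    _ ≤ ∑ x : ZMod N, (1 / 4 : ℝ) := by
        apply Finset.sum_le_sum_of_subset_of_nonneg (Finset.filter_subset _ _)
        intro x _ _
        norm_num
    _ = N / 4 := by
        rw [Finset.sum_const, Finset.card_univ, ZMod.card, nsmul_eq_mul]; ring

theorem ls_ite (p q r : Prop) [Decidable p] [Decidable q] [Decidable r] (f : ℝ) (hf : 0 ≤ f) :
    f ≤ (if p ∧ q ∧ r then f else 0) + (if ¬ p then f else 0) + (if ¬ q then f else 0) +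
      (if ¬ r then f else 0) := by
  by_cases c1 : p <;> by_cases c2 : q <;> by_cases c3 : r <;> simp [c1, c2, c3] <;> linarith

/-- The good set carries an eighth of the mass. -/
theorem ls_good (N d : ℕ) (hN : 16 ^ (d + 1) ≤ N) [NeZero N] (b : ℝ) (hb0 : 0 < b)
    (hb : b ≤ 1 / 2) (hM : 96 ≤ b ^ 2 * d) :
    (N : ℝ) / 8 ≤ ∑ x ∈ Finset.univ.filter (fun x : ZMod N => b * d / 2 ≤ Sg N d x ∧
      1 / 4 ≤ F N d b x ∧ F N d b x < 2 * Real.exp (2 * (b ^ 2 * d))), F N d b x := by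
  have hFb : ∀ x, 0 ≤ F N d b x := fun x => F_nonneg N d b (by rw [abs_of_pos hb0]; exact hb) x
  have h0 := ls_sum N d hN b
  have h1 := ls_low N d hN b hb0 hb
  have h2 := ls_high N d hN b hb0 hb
  have h3 := ls_quarter N d b
  have hN' : (0 : ℝ) ≤ N := Nat.cast_nonneg _
  have h4 : Real.exp (-(b ^ 2 * d / 32)) ≤ 1 / 8 := by
    have e1 : Real.exp (-(b ^ 2 * d / 32)) ≤ Real.exp (-3) := by
      rw [Real.exp_le_exp]; linarith
    have e2 : Real.exp (-3) = (Real.exp 1 ^ 3)⁻¹ := by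
      rw [← Real.exp_nat_mul, ← Real.exp_neg]; congr 1; norm_num
    have e3 : (8 : ℝ) ≤ Real.exp 1 ^ 3 := by
      have : (2 : ℝ) ≤ Real.exp 1 := by
        have := Real.add_one_le_exp 1; linarith
      calc (8 : ℝ) = 2 ^ 3 := by norm_num
        _ ≤ _ := pow_le_pow_left₀ (by norm_num) this 3
    rw [e2] at e1
    refine e1.trans ?_
    rw [one_div]
    exact inv_anti₀ (by norm_num) e3
  have h5 : (N : ℝ) * Real.exp (-(b ^ 2 * d / 32)) ≤ N / 8 := by
    calc (N : ℝ) * Real.exp (-(b ^ 2 * d / 32)) ≤ N * (1 / 8) :=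
          mul_le_mul_of_nonneg_left h4 hN'
      _ = N / 8 := by ring
  have h6 : ∑ x : ZMod N, F N d b x ≤
      (∑ x ∈ Finset.univ.filter (fun x : ZMod N => b * d / 2 ≤ Sg N d x ∧
        1 / 4 ≤ F N d b x ∧ F N d b x < 2 * Real.exp (2 * (b ^ 2 * d))), F N d b x) +
      (∑ x ∈ Finset.univ.filter (fun x : ZMod N => ¬ (b * d / 2 ≤ Sg N d x)), F N d b x) +
      (∑ x ∈ Finset.univ.filter (fun x : ZMod N => ¬ (1 / 4 ≤ F N d b x)), F N d b x) +
      (∑ x ∈ Finset.univ.filter (fun x : ZMod N =>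
        ¬ (F N d b x < 2 * Real.exp (2 * (b ^ 2 * d)))), F N d b x) := by
    simp only [Finset.sum_filter]
    rw [← Finset.sum_add_distrib, ← Finset.sum_add_distrib, ← Finset.sum_add_distrib]
    apply Finset.sum_le_sum
    intro x _
    exact ls_ite _ _ _ _ (hFb x)
  linarith

theorem ls_main (N d : ℕ) (hN : 16 ^ (d + 1) ≤ N) (b : ℝ) (hb0 : 0 < b)
    (hb : b ≤ 1 / 2) (M : ℝ) (hM : M = b ^ 2 * d) (hM96 : 96 ≤ M) :
    ∃ (A : Finset (ZMod N)) (κ : ℝ), A.Nonempty ∧ 0 < κ ∧ (∀ x ∈ A, 1 ≤ κ * F N d b x) ∧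
      (A.card : ℝ) ≤ N * Real.exp (-(M / 32)) ∧
      κ * N ≤ A.card * (8 * Real.exp 1 * (2 * M + 4)) ∧
      (N : ℝ) ≤ A.card * (8 * (2 * M + 4) * Real.exp (2 * M + 2)) := by
  have hN0 : 0 < N := lt_of_lt_of_le (by positivity) hN
  have : NeZero N := ⟨hN0.ne'⟩
  have hNr : (0 : ℝ) < N := by exact_mod_cast hN0
  have hFb : ∀ x, 0 ≤ F N d b x := fun x => F_nonneg N d b (by rw [abs_of_pos hb0]; exact hb) x
  have hgood := ls_good N d hN b hb0 hb (by rw [← hM]; exact hM96)
  obtain ⟨G, hG⟩ : ∃ G, G = Finset.univ.filter (fun x : ZMod N => b * d / 2 ≤ Sg N d x ∧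
      1 / 4 ≤ F N d b x ∧ F N d b x < 2 * Real.exp (2 * (b ^ 2 * d))) := ⟨_, rfl⟩
  rw [← hG] at hgood
  rw [← hM] at hG
  have hGm : ∀ x ∈ G, b * d / 2 ≤ Sg N d x ∧ 1 / 4 ≤ F N d b x ∧
      F N d b x < 2 * Real.exp (2 * M) := by
    intro x hx
    rw [hG] at hx
    exact (Finset.mem_filter.1 hx).2
  obtain ⟨n, hn⟩ : ∃ n : ℕ, n = ⌊2 * M⌋₊ + 4 := ⟨_, rfl⟩
  have hn0 : (0 : ℝ) < n := by
    have : 0 < n := by omega
    exact_mod_cast this
  have hn1 : (n : ℝ) ≤ 2 * M + 4 := by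
    rw [hn]; push_cast
    have := Nat.floor_le (by linarith : (0 : ℝ) ≤ 2 * M)
    linarith
  have hn2 : 2 * M + 3 < n := by
    rw [hn]; push_cast
    have := Nat.lt_floor_add_one (2 * M)
    linarith
  have he2 : (2 : ℝ) ≤ Real.exp 1 := by
    have := Real.add_one_le_exp 1; linarith
  have hlog : ∀ x ∈ G, 0 ≤ Real.log (F N d b x) + 2 ∧ Real.log (F N d b x) + 2 < n := by
    intro x hx
    obtain ⟨_, h2, h3⟩ := hGm x hx
    have hpos : 0 < F N d b x := by linarith
    constructor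
    · have h4 : Real.exp (-2) ≤ F N d b x := by
        refine le_trans ?_ h2
        have e2 : Real.exp (-2) = (Real.exp 1 ^ 2)⁻¹ := by
          rw [← Real.exp_nat_mul, ← Real.exp_neg]; congr 1; norm_num
        rw [e2, one_div]
        apply inv_anti₀ (by norm_num)
        calc (4 : ℝ) = 2 ^ 2 := by norm_num
          _ ≤ _ := pow_le_pow_left₀ (by norm_num) he2 2
      have h5 := (Real.le_log_iff_exp_le hpos).2 h4
      linarith
    · have h4 : F N d b x < Real.exp (2 * M + 1) := by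
        rw [Real.exp_add]
        refine h3.trans_le ?_
        rw [mul_comm]
        exact mul_le_mul_of_nonneg_left he2 (Real.exp_pos _).le
      have h5 := (Real.log_lt_iff_lt_exp hpos).2 h4
      linarith
  obtain ⟨i, hi, hsum⟩ := Finset.exists_le_sum_fiber_of_maps_to_of_nsmul_le_sum
    (s := G) (t := Finset.range n) (f := fun x => ⌊Real.log (F N d b x) + 2⌋₊)
    (w := fun x => F N d b x) (b := (N : ℝ) / 8 / n) (by
      intro x hx
      rw [Finset.mem_range]
      obtain ⟨h1, h2⟩ := hlog x hx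
      exact (Nat.floor_lt h1).2 h2) ⟨0, by rw [Finset.mem_range]; omega⟩ (by
      rw [Finset.card_range, nsmul_eq_mul, mul_div_cancel₀ _ hn0.ne']
      exact hgood)
  rw [Finset.mem_range] at hi
  obtain ⟨s, hs⟩ : ∃ s : ℝ, s = (i : ℝ) - 2 := ⟨_, rfl⟩
  have hsub : ∀ x ∈ G.filter (fun x => ⌊Real.log (F N d b x) + 2⌋₊ = i),
      Real.exp s ≤ F N d b x ∧ F N d b x ≤ Real.exp (s + 1) := by
    intro x hx
    obtain ⟨hx1, hx2⟩ := Finset.mem_filter.1 hx
    obtain ⟨h1, h2⟩ := hlog x hx1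
    obtain ⟨_, h3, _⟩ := hGm x hx1
    have hpos : 0 < F N d b x := by linarith
    have h4 := Nat.floor_le h1
    have h5 := Nat.lt_floor_add_one (Real.log (F N d b x) + 2)
    rw [hx2] at h4 h5
    constructor
    · rw [← Real.le_log_iff_exp_le hpos]; linarith
    · rw [← Real.log_le_iff_le_exp hpos]; linarith
  obtain ⟨A, hA⟩ : ∃ A, A = Finset.univ.filter (fun x : ZMod N => b * d / 2 ≤ Sg N d x ∧
      Real.exp s ≤ F N d b x) := ⟨_, rfl⟩
  have hGA : G.filter (fun x => ⌊Real.log (F N d b x) + 2⌋₊ = i) ⊆ A := by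
    intro x hx
    rw [hA, Finset.mem_filter]
    exact ⟨Finset.mem_univ _, (hGm x (Finset.mem_filter.1 hx).1).1, (hsub x hx).1⟩
  have hcard : (N : ℝ) / 8 / n ≤ A.card * Real.exp (s + 1) := by
    refine hsum.trans ?_
    calc ∑ x ∈ G.filter (fun x => ⌊Real.log (F N d b x) + 2⌋₊ = i), F N d b x
        ≤ ∑ x ∈ G.filter (fun x => ⌊Real.log (F N d b x) + 2⌋₊ = i), Real.exp (s + 1) :=
          Finset.sum_le_sum (fun x hx => (hsub x hx).2)
      _ = ((G.filter (fun x => ⌊Real.log (F N d b x) + 2⌋₊ = i)).card : ℝ) *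
          Real.exp (s + 1) := by rw [Finset.sum_const, nsmul_eq_mul]
      _ ≤ A.card * Real.exp (s + 1) := by
          apply mul_le_mul_of_nonneg_right _ (Real.exp_pos _).le
          exact_mod_cast Finset.card_le_card hGA
  have hNn : (N : ℝ) ≤ A.card * Real.exp (s + 1) * (8 * (2 * M + 4)) := by
    rw [div_div, div_le_iff₀ (by positivity)] at hcard
    refine hcard.trans ?_
    apply mul_le_mul_of_nonneg_left _ (by positivity)
    linarith
  refine ⟨A, Real.exp (-s), ?_, Real.exp_pos _, ?_, ?_, ?_, ?_⟩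
  · rw [← Finset.card_pos]
    by_contra h0
    have h1 : A.card = 0 := by omega
    rw [h1] at hNn
    push_cast at hNn
    linarith
  · intro x hx
    rw [hA, Finset.mem_filter] at hx
    calc (1 : ℝ) = Real.exp (-s) * Real.exp s := by
          rw [← Real.exp_add, neg_add_cancel, Real.exp_zero]
      _ ≤ Real.exp (-s) * F N d b x := mul_le_mul_of_nonneg_left hx.2.2 (Real.exp_pos _).le
  · have h1 := ls_unif N d hN b hb0 hb
    rw [← hM] at h1
    refine le_trans ?_ h1
    have : A ⊆ Finset.univ.filter (fun x : ZMod N => b * d / 2 ≤ Sg N d x) := by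
      intro x hx
      rw [hA, Finset.mem_filter] at hx
      exact Finset.mem_filter.2 ⟨Finset.mem_univ _, hx.2.1⟩
    exact_mod_cast Finset.card_le_card this
  · calc Real.exp (-s) * N ≤ Real.exp (-s) * (A.card * Real.exp (s + 1) * (8 * (2 * M + 4))) :=
          mul_le_mul_of_nonneg_left hNn (Real.exp_pos _).le
      _ = A.card * (8 * (Real.exp (-s) * Real.exp (s + 1)) * (2 * M + 4)) := by ring
      _ = A.card * (8 * Real.exp 1 * (2 * M + 4)) := by
          rw [← Real.exp_add]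
          congr 4
          ring
  · refine hNn.trans ?_
    have h1 : Real.exp (s + 1) ≤ Real.exp (2 * M + 2) := by
      rw [Real.exp_le_exp, hs]
      have h2 : (i : ℝ) + 1 ≤ n := by exact_mod_cast hi
      linarith
    calc (A.card : ℝ) * Real.exp (s + 1) * (8 * (2 * M + 4))
        ≤ A.card * Real.exp (2 * M + 2) * (8 * (2 * M + 4)) := by
          apply mul_le_mul_of_nonneg_right _ (by linarith)
          exact mul_le_mul_of_nonneg_left h1 (Nat.cast_nonneg _)
      _ = _ := by ring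

end Pool.H15.PB
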