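import Pool.Agent.H15.PB.FN

set_option autoImplicit false

/-!
Choice of the parameters in the popular lower bound.
-/

namespace Pool.H15.PB

theorem nu_log (l : ℝ) (hl : 2000 ≤ l) :
    Real.log (8 * Real.exp 1 * (2 * (32 * l) + 4)) ≤ 2 * Real.log l := by
  have h3 : Real.exp 1 ≤ 3 := by
    have := Real.exp_one_lt_d9; linarith
  have h1 : 8 * Real.exp 1 * (2 * (32 * l) + 4) ≤ l ^ 2 := by
    calc 8 * Real.exp 1 * (2 * (32 * l) + 4) ≤ 8 * 3 * (2 * (32 * l) + 4) := by
          apply mul_le_mul_of_nonneg_right _ (by linarith)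
          linarith
      _ ≤ l ^ 2 := by nlinarith
  have h2 := Real.log_le_log (by positivity) h1
  rw [Real.log_pow] at h2
  exact_mod_cast h2

theorem nu_log2 (l : ℝ) (hl : 2000 ≤ l) :
    Real.log (8 * (2 * (32 * l) + 4)) ≤ 2 * Real.log l := by
  have h1 : 8 * (2 * (32 * l) + 4) ≤ l ^ 2 := by nlinarith
  have h2 := Real.log_le_log (by positivity) h1
  rw [Real.log_pow] at h2
  exact_mod_cast h2

/-- The real parameter `x` and its integer part. -/
theorem nu_x (q k : ℕ) (hq : 1 ≤ q) (l B : ℝ) (hl : 0 < l) (hB : 0 < B) :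
    ∃ x : ℝ, 0 < x ∧ x ^ q = l ^ k / (8 * k * B + B) := by
  have hy : 0 < l ^ k / (8 * k * B + B) := by positivity
  refine ⟨(l ^ k / (8 * k * B + B)) ^ ((q : ℝ)⁻¹), Real.rpow_pos_of_pos hy _, ?_⟩
  exact Real.rpow_inv_natCast_pow hy.le (by omega)

theorem nu_ge (q : ℕ) (x y : ℝ) (hq : 1 ≤ q) (hx : 0 ≤ x) (h : y ^ q ≤ x ^ q) : y ≤ x := by
  by_contra hc
  push Not at hc
  exact absurd h (not_le.2 (pow_lt_pow_left₀ hc hx (by omega)))

theorem main (k : ℕ) (hk : 2 ≤ k) :
    ∃ c : ℝ, 0 < c ∧ ∃ C : ℝ, 0 < C ∧ ∃ l₀ : ℝ, ∀ N : ℕ, 0 < N → ∀ l K : ℝ, l₀ ≤ l →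
      0 ≤ K → K ≤ c * l → l ^ k ≤ c * (K + Real.log l) * Real.log N ^ (k - 1) →
      ∃ A : Finset (ZMod N), A.Nonempty ∧ l ≤ Real.log ((N : ℝ) / (A.card : ℝ)) ∧
        Real.log ((N : ℝ) / (A.card : ℝ)) ≤ C * l ∧
        ∀ (Γ : Finset (ZMod N)) (ε : ℝ), 0 < ε →
          (∀ x : ZMod N,
              (∀ γ ∈ Γ, |((γ * x).val : ℝ) / (N : ℝ)
                - ((round (((γ * x).val : ℝ) / (N : ℝ)) : ℤ) : ℝ)| ≤ ε) →
              Real.exp (-K) * ((A.card : ℝ) ^ (2 * k) / N) ≤
                (Set.ncard {p : (Fin k → ZMod N) × (Fin k → ZMod N) |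
                  (∀ i, p.1 i ∈ A) ∧ (∀ i, p.2 i ∈ A) ∧
                    x = ∑ i, p.1 i - ∑ i, p.2 i} : ℝ)) →
          c * Real.log ((N : ℝ) / (A.card : ℝ)) ^ k ≤
            (K + Real.log (Real.log ((N : ℝ) / (A.card : ℝ)))) *
              ((Γ.card : ℝ) * Real.log (2 + 1 / ε)) ^ (k - 1) := by
  obtain ⟨q, hq1, hkq⟩ : ∃ q, 1 ≤ q ∧ k = q + 1 := ⟨k - 1, by omega, by omega⟩
  have hkq' : k - 1 = q := by omega
  rw [hkq']
  have hkr : (2 : ℝ) ≤ k := by exact_mod_cast hk
  have hk0 : (0 : ℝ) < k := by linarith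
  -- the constants
  obtain ⟨c0, hc0⟩ : ∃ c0 : ℝ, c0 = 1 / (18 * k * 129 ^ q) := ⟨_, rfl⟩
  have hc0p : 0 < c0 := by rw [hc0]; positivity
  obtain ⟨c1, hc1⟩ : ∃ c1 : ℝ, c1 = 1 / 7 ^ q := ⟨_, rfl⟩
  have hc1p : 0 < c1 := by rw [hc1]; positivity
  obtain ⟨c2, hc2⟩ : ∃ c2 : ℝ, c2 = 1 / (66 ^ k * (9 * k) * 100 ^ q) := ⟨_, rfl⟩
  have hc2p : 0 < c2 := by rw [hc2]; positivity
  obtain ⟨c, hc⟩ : ∃ c : ℝ, c = min c0 (min c1 c2) := ⟨_, rfl⟩
  have hcp : 0 < c := by rw [hc]; exact lt_min hc0p (lt_min hc1p hc2p)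
  have hcc0 : c ≤ c0 := by rw [hc]; exact min_le_left _ _
  have hcc1 : c ≤ c1 := by rw [hc]; exact (min_le_right _ _).trans (min_le_left _ _)
  have hcc2 : c ≤ c2 := by rw [hc]; exact (min_le_right _ _).trans (min_le_right _ _)
  have hev := (Real.isLittleO_log_id_atTop.def hc0p)
  rw [Filter.eventually_atTop] at hev
  obtain ⟨l1, hl1⟩ := hev
  refine ⟨c, hcp, 66, by norm_num, max 2000 l1, ?_⟩
  intro N hN0 l K hl hK0 hKl hNl
  have hl2000 : 2000 ≤ l := (le_max_left _ _).trans hl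
  have hl0 : 0 < l := by linarith
  have hlog0 : 1 ≤ Real.log l := by
    rw [Real.le_log_iff_exp_le hl0]
    have := Real.exp_one_lt_d9; linarith
  have hlogc : Real.log l ≤ c0 * l := by
    have h := hl1 l ((le_max_right _ _).trans hl)
    simp only [id, Real.norm_eq_abs] at h
    rw [abs_of_nonneg (by linarith), abs_of_pos hl0] at h
    exact h
  obtain ⟨B, hBdef⟩ : ∃ B : ℝ, B = K + Real.log l := ⟨_, rfl⟩
  have hB0 : 0 < B := by rw [hBdef]; linarith
  obtain ⟨x, hx0, hxq⟩ := nu_x q k hq1 l B hl0 hB0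
  have hxq9 : l ^ k / (9 * k * B) ≤ x ^ q := by
    rw [hxq]
    apply div_le_div_of_nonneg_left (by positivity) (by positivity)
    have : B ≤ k * B := by
      calc B = 1 * B := (one_mul _).symm
        _ ≤ k * B := mul_le_mul_of_nonneg_right (by linarith) hB0.le
    linarith
  have hxq8 : x ^ q ≤ l ^ k / (8 * k * B) := by
    rw [hxq]
    apply div_le_div_of_nonneg_left (by positivity) (by positivity)
    linarith
  -- `x` is large
  have hx129 : 129 * l ≤ x := by
    apply nu_ge q _ _ hq1 hx0.le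
    refine le_trans ?_ hxq9
    rw [le_div_iff₀ (by positivity), mul_pow, hkq, pow_succ l q]
    have hB2 : B ≤ 2 * (c0 * l) := by
      rw [hBdef]
      have : K ≤ c0 * l := hKl.trans (mul_le_mul_of_nonneg_right hcc0 hl0.le)
      linarith
    have h5 : (129 : ℝ) ^ q * (9 * k * B) ≤ l := by
      calc (129 : ℝ) ^ q * (9 * k * B) ≤ (129 : ℝ) ^ q * (9 * k * (2 * (c0 * l))) := by
            apply mul_le_mul_of_nonneg_left _ (by positivity)
            exact mul_le_mul_of_nonneg_left hB2 (by positivity)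
        _ = l := by rw [hc0]; field_simp; ring
    have hcast : ((q + 1 : ℕ) : ℝ) = k := by rw [hkq]
    rw [hcast]
    calc (129 : ℝ) ^ q * l ^ q * (9 * k * B) = l ^ q * ((129 : ℝ) ^ q * (9 * k * B)) := by ring
      _ ≤ l ^ q * l := mul_le_mul_of_nonneg_left h5 (by positivity)
  -- the integer `d`
  obtain ⟨d, hd⟩ : ∃ d : ℕ, d = ⌊x⌋₊ := ⟨_, rfl⟩
  have hdx : (d : ℝ) ≤ x := by rw [hd]; exact Nat.floor_le hx0.le
  have hxd : x < d + 1 := by rw [hd]; exact Nat.lt_floor_add_one x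
  have hd128 : 128 * l ≤ d := by linarith
  have hd0r : (0 : ℝ) < d := by linarith
  have hd0 : 0 < d := by exact_mod_cast hd0r
  have hxd2 : x ≤ 2 * d := by linarith
  -- the size of `N`
  have h32 : 32 ^ (d + 1) ≤ N := by
    have hNr : (0 : ℝ) < N := by exact_mod_cast hN0
    have hlogN : 7 * x ≤ Real.log N := by
      have hlogN0 : 0 ≤ Real.log N := Real.log_natCast_nonneg N
      apply nu_ge q _ _ hq1 hlogN0
      rw [mul_pow]
      have h6 : l ^ k / (8 * k * B) ≤ c1 * Real.log N ^ q := by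
        rw [div_le_iff₀ (by positivity)]
        rw [← hBdef] at hNl
        have h7 : c * B * Real.log N ^ q ≤ c1 * B * Real.log N ^ q := by
          apply mul_le_mul_of_nonneg_right _ (by positivity)
          exact mul_le_mul_of_nonneg_right hcc1 hB0.le
        refine hNl.trans (h7.trans ?_)
        have h8 : c1 * Real.log N ^ q * B * 1 ≤ c1 * Real.log N ^ q * B * (8 * k) := by
          apply mul_le_mul_of_nonneg_left _ (by positivity)
          linarith
        calc c1 * B * Real.log N ^ q = c1 * Real.log N ^ q * B * 1 := by ring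
          _ ≤ c1 * Real.log N ^ q * B * (8 * k) := h8
          _ = c1 * Real.log N ^ q * (8 * k * B) := by ring
      calc (7 : ℝ) ^ q * x ^ q ≤ 7 ^ q * (c1 * Real.log N ^ q) :=
            mul_le_mul_of_nonneg_left (hxq8.trans h6) (by positivity)
        _ = Real.log N ^ q := by rw [hc1]; field_simp
    have h9 : (32 : ℝ) ^ (d + 1) ≤ N := by
      have h8 : (32 : ℝ) ^ (d + 1) = Real.exp (((d + 1 : ℕ) : ℝ) * Real.log 32) := by
        rw [Real.exp_nat_mul, Real.exp_log (by norm_num : (0 : ℝ) < 32)]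
      rw [h8, ← Real.exp_log hNr, Real.exp_le_exp]
      have h10 : Real.log 32 ≤ 7 / 2 := by
        have : (32 : ℝ) = 2 ^ 5 := by norm_num
        rw [this, Real.log_pow]
        have := Real.log_two_lt_d9
        push_cast
        linarith
      have h11 : ((d + 1 : ℕ) : ℝ) ≤ 2 * x := by push_cast; linarith
      calc ((d + 1 : ℕ) : ℝ) * Real.log 32 ≤ 2 * x * (7 / 2) :=
            mul_le_mul h11 h10 (Real.log_nonneg (by norm_num)) (by linarith)
        _ = 7 * x := by ring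
        _ ≤ Real.log N := hlogN
    exact_mod_cast h9
  -- `b`
  obtain ⟨b, hb⟩ : ∃ b : ℝ, b = Real.sqrt (32 * l / d) := ⟨_, rfl⟩
  have hb2 : b ^ 2 = 32 * l / d := by rw [hb]; exact Real.sq_sqrt (by positivity)
  have hb0 : 0 < b := by rw [hb]; exact Real.sqrt_pos.2 (by positivity)
  have hb1 : b ≤ 1 / 2 := by
    apply nu_ge 2 _ _ (by norm_num) (by norm_num)
    rw [hb2, div_le_iff₀ hd0r]
    linarith
  obtain ⟨A, hA, hL1, hL2, hA3⟩ := fn_core k N d (by omega) h32 hd0 b hb0 hb1 (32 * l)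
    (by rw [hb2]; field_simp) (by linarith)
  have hL3 : Real.log ((N : ℝ) / (A.card : ℝ)) ≤ 66 * l := by
    have h1 := nu_log2 l hl2000
    have h2 : Real.log l ≤ l / 2 := by
      have : c0 ≤ 1 / 2 := by
        rw [hc0]
        apply div_le_div_of_nonneg_left (by norm_num) (by norm_num)
        have : (1 : ℝ) ≤ 129 ^ q := one_le_pow₀ (by norm_num)
        nlinarith
      calc Real.log l ≤ c0 * l := hlogc
        _ ≤ 1 / 2 * l := mul_le_mul_of_nonneg_right this hl0.le
        _ = l / 2 := by ring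
    linarith
  have hL1' : l ≤ Real.log ((N : ℝ) / (A.card : ℝ)) := by linarith
  refine ⟨A, hA, hL1', hL3, ?_⟩
  intro Γ ε hε hpop
  obtain ⟨L, hL⟩ : ∃ L, L = Real.log ((N : ℝ) / (A.card : ℝ)) := ⟨_, rfl⟩
  rw [← hL] at hL1' hL3 ⊢
  obtain ⟨D, hD⟩ : ∃ D : ℝ, D = (Γ.card : ℝ) * Real.log (2 + 1 / ε) := ⟨_, rfl⟩
  rw [← hD]
  have hDd : (d : ℝ) / 50 < D := by
    by_contra hcon
    push Not at hcon
    rw [hD] at hcon
    obtain ⟨z, hz1, hz2⟩ := hA3 Γ ε hε hcon
    have hz3 := (hpop z hz1).trans hz2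
    have hAc : (0 : ℝ) < A.card := by exact_mod_cast Finset.card_pos.2 hA
    have hNr : (0 : ℝ) < N := by exact_mod_cast hN0
    have hz4 : Real.exp (-K) ≤ (8 * Real.exp 1 * (2 * (32 * l) + 4)) ^ (2 * k) *
        Real.exp (-(b ^ (2 * k) * d / 2)) :=
      le_of_mul_le_mul_right hz3 (by positivity)
    have hY : (0 : ℝ) < 8 * Real.exp 1 * (2 * (32 * l) + 4) := by positivity
    have hz5 := Real.log_le_log (Real.exp_pos _) hz4
    rw [Real.log_exp, Real.log_mul (by positivity) (Real.exp_pos _).ne', Real.log_exp,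
      Real.log_pow] at hz5
    have hz6 := nu_log l hl2000
    have hz7 : ((2 * k : ℕ) : ℝ) * Real.log (8 * Real.exp 1 * (2 * (32 * l) + 4)) ≤
        2 * k * (2 * Real.log l) := by
      push_cast
      exact mul_le_mul_of_nonneg_left hz6 (by positivity)
    have hbk : b ^ (2 * k) * d = (32 * l) ^ k / d ^ q := by
      rw [pow_mul, hb2, div_pow, hkq, pow_succ (d : ℝ) q]
      field_simp
    have hbk2 : 32 ^ k * (8 * k * B) ≤ b ^ (2 * k) * d := by
      rw [hbk, le_div_iff₀ (by positivity), mul_pow, mul_assoc]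
      apply mul_le_mul_of_nonneg_left _ (by positivity)
      have h12 : (d : ℝ) ^ q ≤ l ^ k / (8 * k * B) :=
        (pow_le_pow_left₀ hd0r.le hdx q).trans hxq8
      rw [le_div_iff₀ (by positivity)] at h12
      linarith
    have h32k : (1 : ℝ) < 32 ^ k := one_lt_pow₀ (by norm_num) (by omega)
    have hkB : 8 * k * B < 32 ^ k * (8 * k * B) := by
      calc 8 * k * B = 1 * (8 * k * B) := (one_mul _).symm
        _ < 32 ^ k * (8 * k * B) := mul_lt_mul_of_pos_right h32k (by positivity)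
    have hfin : K + 2 * k * (2 * Real.log l) ≤ 8 * k * B / 2 := by
      rw [hBdef]
      have : K ≤ 4 * k * K := by
        calc K = 1 * K := (one_mul _).symm
          _ ≤ 4 * k * K := mul_le_mul_of_nonneg_right (by linarith) hK0
      linarith
    linarith
  have hDq : x ^ q / 100 ^ q ≤ D ^ q := by
    rw [← div_pow]
    apply pow_le_pow_left₀ (by positivity)
    linarith
  have hLl : Real.log l ≤ Real.log L := Real.log_le_log hl0 hL1'
  have hL0 : 0 < L := by linarith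
  have hD0 : 0 ≤ D := by
    have : (0 : ℝ) ≤ d / 50 := by positivity
    linarith
  calc c * L ^ k ≤ c2 * (66 * l) ^ k := by
        apply mul_le_mul hcc2 (pow_le_pow_left₀ hL0.le hL3 k) (by positivity) hc2p.le
    _ = B * (l ^ k / (9 * k * B) / 100 ^ q) := by
        rw [hc2, mul_pow]; field_simp
    _ ≤ B * (x ^ q / 100 ^ q) := by
        apply mul_le_mul_of_nonneg_left _ hB0.le
        exact div_le_div_of_nonneg_right hxq9 (by positivity)
    _ ≤ B * D ^ q := mul_le_mul_of_nonneg_left hDq hB0.le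
    _ ≤ (K + Real.log L) * D ^ q := by
        apply mul_le_mul_of_nonneg_right _ (by positivity)
        rw [hBdef]; linarith

end Pool.H15.PB
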