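import Pool.Agent.H15.PB.Defs

set_option autoImplicit false

/-!
The semigroup property of the Riesz products.
-/

namespace Pool.H15.PB

/-- The digit `-1, 0, 1` attached to an element of `Fin 3`. -/
def sg (n : Fin 3) : ℤ := (n : ℤ) - 1

/-- The coefficient. -/
noncomputable def cf (b : ℝ) (n : Fin 3) : ℝ := if n = 1 then 1 else b

/-- The frequency attached to a digit vector. -/
def vv {d : ℕ} (e : Fin d → Fin 3) : ℤ := ∑ j : Fin d, sg (e j) * 16 ^ (j : ℕ)

theorem rz_uniq : ∀ (d : ℕ) (n : Fin d → ℤ), (∀ j, |n j| ≤ 2) →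
    ∑ j : Fin d, n j * 16 ^ (j : ℕ) = 0 → ∀ j, n j = 0 := by
  intro d
  induction d with
  | zero => intro n _ _ j; exact j.elim0
  | succ d ih =>
    intro n hn h
    rw [Fin.sum_univ_succ] at h
    have e1 : ∑ j : Fin d, n j.succ * 16 ^ (j.succ : ℕ) =
        16 * ∑ j : Fin d, n j.succ * 16 ^ (j : ℕ) := by
      rw [Finset.mul_sum]
      apply Finset.sum_congr rfl
      intro j _
      rw [Fin.val_succ, pow_succ]
      ring
    rw [e1, Fin.val_zero, pow_zero, mul_one] at h
    have h0 := abs_le.1 (hn 0)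
    have h1 : n 0 = 0 := by omega
    have h2 : ∑ j : Fin d, n j.succ * 16 ^ (j : ℕ) = 0 := by omega
    intro j
    refine Fin.cases h1 (fun i => ?_) j
    exact ih (fun j => n j.succ) (fun j => hn j.succ) h2 i

theorem rz_bound (d : ℕ) (n : Fin d → ℤ) (hn : ∀ j, |n j| ≤ 2) :
    |∑ j : Fin d, n j * 16 ^ (j : ℕ)| ≤ 2 * 16 ^ d := by
  have h1 : ∀ d : ℕ, ∑ j ∈ Finset.range d, (2 * 16 ^ j : ℤ) ≤ 2 * 16 ^ d := by
    intro d
    induction d with
    | zero => simp
    | succ d ih =>
      rw [Finset.sum_range_succ, pow_succ]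
      have : (0 : ℤ) ≤ 16 ^ d := by positivity
      linarith
  refine (Finset.abs_sum_le_sum_abs _ _).trans ?_
  refine le_trans ?_ (h1 d)
  rw [Finset.sum_range]
  apply Finset.sum_le_sum
  intro j _
  rw [abs_mul, abs_of_nonneg (by positivity : (0 : ℤ) ≤ 16 ^ (j : ℕ))]
  exact mul_le_mul_of_nonneg_right (hn j) (by positivity)

theorem rz_inj (N d : ℕ) (hN : 16 ^ (d + 1) ≤ N) (e f : Fin d → Fin 3)
    (h : (vv e : ZMod N) = (vv f : ZMod N)) : e = f := by
  rw [ZMod.intCast_eq_intCast_iff_dvd_sub] at h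
  have hd : vv f - vv e = ∑ j : Fin d, (sg (f j) - sg (e j)) * 16 ^ (j : ℕ) := by
    unfold vv
    rw [← Finset.sum_sub_distrib]
    apply Finset.sum_congr rfl
    intro j _
    ring
  have hs : ∀ j, |sg (f j) - sg (e j)| ≤ 2 := by
    intro j
    unfold sg
    have h1 := (f j).2
    have h2 := (e j).2
    rw [abs_le]
    constructor <;> omega
  have hb := rz_bound d _ hs
  rw [← hd] at hb
  have h16 : (16 : ℤ) ^ (d + 1) ≤ N := by exact_mod_cast hN
  have h0 : vv f - vv e = 0 := by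
    apply Int.eq_zero_of_abs_lt_dvd h
    have : (0 : ℤ) < 16 ^ d := by positivity
    rw [pow_succ] at h16
    linarith
  rw [hd] at h0
  have h3 := rz_uniq d _ hs h0
  funext j
  have h4 := h3 j
  unfold sg at h4
  apply Fin.ext
  omega

theorem rz_char (N : ℕ) [NeZero N] (j : ℕ) (x : ZMod N) :
    ZMod.stdAddChar ((16 : ZMod N) ^ j * x) = Complex.exp ((th N j x : ℝ) * Complex.I) := by
  have h1 : ((16 : ZMod N) ^ j * x) = ((16 ^ j * (x.val : ℤ) : ℤ) : ZMod N) := by
    push_cast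
    rw [ZMod.natCast_zmod_val]
  rw [h1, ZMod.stdAddChar_coe]
  congr 1
  unfold th
  push_cast
  ring

theorem rz_factor (N : ℕ) [NeZero N] (j : ℕ) (b : ℝ) (x : ZMod N) :
    ((1 + 2 * b * Real.cos (th N j x) : ℝ) : ℂ) =
      ∑ n : Fin 3, (cf b n : ℂ) * ZMod.stdAddChar (((sg n * 16 ^ j : ℤ) : ZMod N) * x) := by
  rw [Fin.sum_univ_three]
  have h1 : ((sg 0 * 16 ^ j : ℤ) : ZMod N) * x = -((16 : ZMod N) ^ j * x) := by
    rw [show sg 0 = -1 from rfl]; push_cast; ring
  have h2 : ((sg 1 * 16 ^ j : ℤ) : ZMod N) * x = 0 := by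
    rw [show sg 1 = 0 from rfl]; simp
  have h3 : ((sg 2 * 16 ^ j : ℤ) : ZMod N) * x = (16 : ZMod N) ^ j * x := by
    rw [show sg 2 = 1 from rfl]; push_cast; ring
  rw [h1, h2, h3, AddChar.map_neg_eq_inv, AddChar.map_zero_eq_one, rz_char, ← Complex.exp_neg]
  have c0 : cf b 0 = b := by unfold cf; rw [if_neg (by decide)]
  have c1 : cf b 1 = 1 := by unfold cf; rw [if_pos rfl]
  have c2 : cf b 2 = b := by unfold cf; rw [if_neg (by decide)]
  rw [c0, c1, c2]
  have h4 : ((Real.cos (th N j x) : ℝ) : ℂ) =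
      (Complex.exp ((th N j x : ℝ) * Complex.I) + Complex.exp (-((th N j x : ℝ) * Complex.I))) / 2 := by
    rw [Complex.ofReal_cos, Complex.cos]
    congr 2
    ring_nf
  push_cast
  rw [← Complex.ofReal_cos, h4]
  ring

theorem rz_map_sum (N : ℕ) [NeZero N] {ι : Type*} (s : Finset ι) (g : ι → ZMod N) :
    ZMod.stdAddChar (∑ i ∈ s, g i) = ∏ i ∈ s, ZMod.stdAddChar (g i) := by
  classical
  induction s using Finset.induction_on with
  | empty => simp
  | insert a s ha ih => rw [Finset.sum_insert ha, Finset.prod_insert ha, AddChar.map_add_eq_mul, ih]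

theorem rz_expand (N : ℕ) [NeZero N] (d : ℕ) (b : ℝ) (x : ZMod N) :
    ((F N d b x : ℝ) : ℂ) =
      ∑ e : Fin d → Fin 3, ((∏ j, cf b (e j) : ℝ) : ℂ) * ZMod.stdAddChar ((vv e : ZMod N) * x) := by
  unfold F
  rw [Complex.ofReal_prod]
  simp only [rz_factor]
  rw [Finset.prod_univ_sum, Fintype.piFinset_univ]
  apply Finset.sum_congr rfl
  intro e _
  rw [Finset.prod_mul_distrib, ← rz_map_sum]
  congr 1
  · push_cast; rfl
  · congr 1
    unfold vv
    push_cast
    rw [Finset.sum_mul]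

/-- The semigroup property. -/
theorem rz_conv (N d : ℕ) (hN : 16 ^ (d + 1) ≤ N) [NeZero N] (a b : ℝ) (x : ZMod N) :
    ∑ y : ZMod N, F N d a (x - y) * F N d b y = N * F N d (a * b) x := by
  have key : ((∑ y : ZMod N, F N d a (x - y) * F N d b y : ℝ) : ℂ) =
      ((N * F N d (a * b) x : ℝ) : ℂ) := by
    rw [Complex.ofReal_sum]
    simp only [Complex.ofReal_mul]
    simp only [rz_expand]
    simp only [Finset.sum_mul_sum]
    rw [Finset.sum_comm]
    rw [Finset.mul_sum]
    apply Finset.sum_congr rfl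
    intro e _
    rw [Finset.sum_comm]
    rw [Finset.sum_eq_single e]
    · have h1 : ∀ y : ZMod N, ((∏ j, cf a (e j) : ℝ) : ℂ) *
          ZMod.stdAddChar ((vv e : ZMod N) * (x - y)) *
          (((∏ j, cf b (e j) : ℝ) : ℂ) * ZMod.stdAddChar ((vv e : ZMod N) * y)) =
          ((∏ j, cf (a * b) (e j) : ℝ) : ℂ) * ZMod.stdAddChar ((vv e : ZMod N) * x) := by
        intro y
        have h2 : (∏ j, cf (a * b) (e j) : ℝ) = (∏ j, cf a (e j)) * ∏ j, cf b (e j) := by
          rw [← Finset.prod_mul_distrib]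
          apply Finset.prod_congr rfl
          intro j _
          unfold cf
          split_ifs <;> ring
        have h3 : (vv e : ZMod N) * x = (vv e : ZMod N) * (x - y) + (vv e : ZMod N) * y := by ring
        rw [h2, h3, AddChar.map_add_eq_mul]
        push_cast
        ring
      rw [Finset.sum_congr rfl (fun y _ => h1 y), Finset.sum_const, Finset.card_univ, ZMod.card,
        nsmul_eq_mul]
      push_cast
      ring
    · intro f _ hfe
      have h1 : ∀ y : ZMod N, ((∏ j, cf a (e j) : ℝ) : ℂ) *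
          ZMod.stdAddChar ((vv e : ZMod N) * (x - y)) *
          (((∏ j, cf b (f j) : ℝ) : ℂ) * ZMod.stdAddChar ((vv f : ZMod N) * y)) =
          (((∏ j, cf a (e j) : ℝ) : ℂ) * ZMod.stdAddChar ((vv e : ZMod N) * x) *
          ((∏ j, cf b (f j) : ℝ) : ℂ)) *
          ZMod.stdAddChar (y * ((vv f : ZMod N) - (vv e : ZMod N))) := by
        intro y
        have h3 : (vv e : ZMod N) * (x - y) = (vv e : ZMod N) * x + (-((vv e : ZMod N) * y)) := by
          ring
        have h4 : y * ((vv f : ZMod N) - (vv e : ZMod N)) =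
            (vv f : ZMod N) * y + (-((vv e : ZMod N) * y)) := by ring
        rw [h3, h4, AddChar.map_add_eq_mul, AddChar.map_add_eq_mul]
        ring
      rw [Finset.sum_congr rfl (fun y _ => h1 y), ← Finset.mul_sum,
        AddChar.sum_mulShift _ (ZMod.isPrimitive_stdAddChar N), if_neg, Nat.cast_zero, mul_zero]
      intro h0
      apply hfe
      apply rz_inj N d hN
      exact (sub_eq_zero.1 h0)
    · intro h
      exact absurd (Finset.mem_univ _) h
  exact_mod_cast key

theorem rz_count (N d : ℕ) (hN : 16 ^ (d + 1) ≤ N) [NeZero N] (b : ℝ) : ∀ (m : ℕ) (z : ZMod N),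
    ∑ u : Fin (m + 1) → ZMod N, (if ∑ i, u i = z then ∏ i, F N d b (u i) else 0) =
      (N : ℝ) ^ m * F N d (b ^ (m + 1)) z := by
  intro m
  induction m with
  | zero =>
    intro z
    have h := Fintype.sum_equiv (Equiv.funUnique (Fin 1) (ZMod N)).symm
      (fun w : ZMod N => if w = z then F N d b w else 0)
      (fun u : Fin (0 + 1) → ZMod N => if ∑ i, u i = z then ∏ i, F N d b (u i) else 0) (by
        intro w
        simp)
    rw [← h, Finset.sum_ite_eq' Finset.univ z, if_pos (Finset.mem_univ _), pow_zero, one_mul,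
      zero_add, pow_one]
  | succ m ih =>
    intro z
    have h := Fintype.sum_equiv (Fin.consEquiv (fun _ : Fin (m + 1 + 1) => ZMod N)).symm
      (fun u : Fin (m + 1 + 1) → ZMod N => if ∑ i, u i = z then ∏ i, F N d b (u i) else 0)
      (fun p : ZMod N × (Fin (m + 1) → ZMod N) =>
        F N d b p.1 * (if ∑ i, p.2 i = z - p.1 then ∏ i, F N d b (p.2 i) else 0)) (by
        intro u
        have e1 : ((Fin.consEquiv (fun _ : Fin (m + 1 + 1) => ZMod N)).symm u) =
            (u 0, fun i => u i.succ) := rfl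
        rw [e1]
        dsimp only
        rw [Fin.sum_univ_succ, Fin.prod_univ_succ]
        by_cases h : u 0 + ∑ i : Fin (m + 1), u i.succ = z
        · rw [if_pos h, if_pos (by rw [← h]; ring)]
        · rw [if_neg h, if_neg (by intro h'; apply h; rw [h']; ring), mul_zero])
    rw [h, Fintype.sum_prod_type]
    simp only [← Finset.mul_sum]
    simp only [ih]
    have h2 : ∑ w : ZMod N, F N d b w * ((N : ℝ) ^ m * F N d (b ^ (m + 1)) (z - w)) =
        (N : ℝ) ^ m * ∑ w : ZMod N, F N d (b ^ (m + 1)) (z - w) * F N d b w := by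
      rw [Finset.mul_sum]
      apply Finset.sum_congr rfl
      intro w _
      ring
    rw [h2, rz_conv N d hN, ← pow_succ b (m + 1), ← mul_assoc, ← pow_succ]

/-- Differences of two `k`-fold sums. -/
theorem rz_count2 (N d : ℕ) (hN : 16 ^ (d + 1) ≤ N) [NeZero N] (b : ℝ) (k : ℕ) (hk : 1 ≤ k)
    (z : ZMod N) :
    ∑ p : (Fin k → ZMod N) × (Fin k → ZMod N),
      (if z = ∑ i, p.1 i - ∑ i, p.2 i then (∏ i, F N d b (p.1 i)) * ∏ i, F N d b (p.2 i) else 0) =
      (N : ℝ) ^ (2 * k - 1) * F N d (b ^ (2 * k)) z := by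
  obtain ⟨m, rfl⟩ : ∃ m, k = m + 1 := ⟨k - 1, by omega⟩
  have hN0 : 0 < N := lt_of_lt_of_le (by positivity) hN
  rw [Fintype.sum_prod_type]
  have h1 : ∀ u v : Fin (m + 1) → ZMod N,
      (if z = ∑ i, u i - ∑ i, v i then (∏ i, F N d b (u i)) * ∏ i, F N d b (v i) else 0) =
      ∑ w : ZMod N, (if ∑ i, u i = w then ∏ i, F N d b (u i) else 0) *
        (if ∑ i, v i = w - z then ∏ i, F N d b (v i) else 0) := by
    intro u v
    rw [Finset.sum_eq_single (∑ i, u i)]
    · rw [if_pos rfl]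
      by_cases h : z = ∑ i, u i - ∑ i, v i
      · rw [if_pos h, if_pos (by rw [h]; ring)]
      · rw [if_neg h, if_neg (by intro h'; apply h; rw [h']; ring), mul_zero]
    · intro w _ hw
      rw [if_neg (fun h => hw h.symm), zero_mul]
    · intro h
      exact absurd (Finset.mem_univ _) h
  simp only [h1]
  have h2 : ∀ u : Fin (m + 1) → ZMod N, ∑ v : Fin (m + 1) → ZMod N, ∑ w : ZMod N,
      (if ∑ i, u i = w then ∏ i, F N d b (u i) else 0) *
        (if ∑ i, v i = w - z then ∏ i, F N d b (v i) else 0) =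
      ∑ w : ZMod N, (if ∑ i, u i = w then ∏ i, F N d b (u i) else 0) *
        ((N : ℝ) ^ m * F N d (b ^ (m + 1)) (w - z)) := by
    intro u
    rw [Finset.sum_comm]
    apply Finset.sum_congr rfl
    intro w _
    rw [← Finset.mul_sum, rz_count N d hN]
  simp only [h2]
  rw [Finset.sum_comm]
  simp only [← Finset.sum_mul]
  simp only [rz_count N d hN]
  have h3 : ∑ w : ZMod N, (N : ℝ) ^ m * F N d (b ^ (m + 1)) w *
      ((N : ℝ) ^ m * F N d (b ^ (m + 1)) (w - z)) =
      (N : ℝ) ^ m * (N : ℝ) ^ m * ∑ w : ZMod N, F N d (b ^ (m + 1)) (z - w) *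
        F N d (b ^ (m + 1)) w := by
    rw [Finset.mul_sum]
    apply Finset.sum_congr rfl
    intro w _
    rw [← F_neg N hN0 d (b ^ (m + 1)) (w - z), neg_sub]
    ring
  rw [h3, rz_conv N d hN, ← pow_add b (m + 1) (m + 1)]
  have e1 : m + 1 + (m + 1) = 2 * (m + 1) := by ring
  have e2 : 2 * (m + 1) - 1 = m + m + 1 := by omega
  rw [e1, e2, pow_succ, pow_add]
  ring

end Pool.H15.PB
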