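import Pool.Agent.H15.PB.Defs

set_option autoImplicit false

/-!
Toggles: the points `⌊N / (2 16 ^ j)⌋`.
-/

namespace Pool.H15.PB

/-- The point of `ZMod N` attached to a point of the cube. -/
def X (N : ℕ) {d : ℕ} (a : Fin d → Bool) : ZMod N :=
  ∑ j : Fin d, if a j then ((N / (2 * 16 ^ (j : ℕ)) : ℕ) : ZMod N) else 0

theorem tg_geom (n : ℕ) : ∑ k ∈ Finset.range n, (1 / 16 : ℝ) ^ (k + 1) ≤ 1 / 15 := by
  have h : ∀ n : ℕ, ∑ k ∈ Finset.range n, (1 / 16 : ℝ) ^ (k + 1) = 1 / 15 * (1 - (1 / 16) ^ n) := by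
    intro n
    induction n with
    | zero => simp
    | succ n ih => rw [Finset.sum_range_succ, ih]; ring
  rw [h n]
  have : (0 : ℝ) < (1 / 16) ^ n := by positivity
  linarith

theorem tg_geom2 (d i : ℕ) :
    ∑ j ∈ Finset.range d, (if i < j then (1 / 16 : ℝ) ^ (j - i) / 2 else 0) ≤ 1 / 30 := by
  have h1 : ∑ j ∈ Finset.range d, (if i < j then (1 / 16 : ℝ) ^ (j - i) / 2 else 0) =
      ∑ j ∈ Finset.Ico (i + 1) d, (1 / 16 : ℝ) ^ (j - i) / 2 := by
    rw [← Finset.sum_filter]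
    apply Finset.sum_congr _ (fun _ _ => rfl)
    ext j
    simp only [Finset.mem_filter, Finset.mem_range, Finset.mem_Ico]
    omega
  rw [h1, Finset.sum_Ico_eq_sum_range]
  have h2 : ∀ k, (i + 1 + k) - i = k + 1 := fun k => by omega
  simp only [h2]
  rw [← Finset.sum_div]
  have := tg_geom (d - (i + 1))
  linarith

/-- One term of the sum. -/
theorem tg_term (N d : ℕ) (hN : 0 < N) (i j : ℕ) (hi : i < d) (e : ℤ) (he : |e| ≤ 1)
    (hie : j = i → e ≠ 0) :
    ∃ n : ℤ, |(e : ℝ) * (16 ^ i * ((N / (2 * 16 ^ j) : ℕ) : ℝ) / N) -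
      (if j = i then 1 / 2 else 0) - n| ≤
      16 ^ i / N + (if i < j then (1 / 16 : ℝ) ^ (j - i) / 2 else 0) := by
  have hNr : (0 : ℝ) < N := by exact_mod_cast hN
  have her : |(e : ℝ)| ≤ 1 := by exact_mod_cast he
  obtain ⟨r, hr⟩ : ∃ r : ℕ, r = N % (2 * 16 ^ j) := ⟨_, rfl⟩
  have hdm : 2 * 16 ^ j * (N / (2 * 16 ^ j)) + r = N := by rw [hr]; exact Nat.div_add_mod N _
  have hrlt : r < 2 * 16 ^ j := by rw [hr]; exact Nat.mod_lt _ (by positivity)
  obtain ⟨x, hx⟩ : ∃ x : ℕ, x = N / (2 * 16 ^ j) := ⟨_, rfl⟩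
  rw [← hx] at hdm ⊢
  have hdm' : (2 * 16 ^ j : ℝ) * x + r = N := by exact_mod_cast hdm
  have hrlt' : (r : ℝ) < 2 * 16 ^ j := by exact_mod_cast hrlt
  have hr0 : (0 : ℝ) ≤ r := Nat.cast_nonneg r
  have h16j : (0 : ℝ) < 2 * 16 ^ j := by positivity
  have hxx : (16 : ℝ) ^ i * x / N = 16 ^ i / (2 * 16 ^ j) - 16 ^ i * (r / (2 * 16 ^ j)) / N := by
    have : (x : ℝ) = (N - r) / (2 * 16 ^ j) := by
      rw [eq_div_iff h16j.ne']; linarith
    rw [this]
    field_simp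
  have herr : |(e : ℝ) * (16 ^ i * (r / (2 * 16 ^ j)) / N)| ≤ 16 ^ i / N := by
    rw [abs_mul]
    have h1 : 0 ≤ (16 : ℝ) ^ i * (r / (2 * 16 ^ j)) / N := by positivity
    rw [abs_of_nonneg h1]
    have h2 : (16 : ℝ) ^ i * (r / (2 * 16 ^ j)) / N ≤ 16 ^ i / N := by
      apply div_le_div_of_nonneg_right _ hNr.le
      have : (r : ℝ) / (2 * 16 ^ j) ≤ 1 := by rw [div_le_one h16j]; exact hrlt'.le
      calc (16 : ℝ) ^ i * (r / (2 * 16 ^ j)) ≤ 16 ^ i * 1 :=
            mul_le_mul_of_nonneg_left this (by positivity)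
        _ = 16 ^ i := mul_one _
    calc |(e : ℝ)| * ((16 : ℝ) ^ i * (r / (2 * 16 ^ j)) / N) ≤ 1 * (16 ^ i / N) :=
          mul_le_mul her h2 h1 (by norm_num)
      _ = 16 ^ i / N := one_mul _
  rcases lt_trichotomy j i with h | h | h
  · obtain ⟨k, rfl⟩ : ∃ k, i = j + 1 + k := ⟨i - (j + 1), by omega⟩
    refine ⟨e * (8 * 16 ^ k), ?_⟩
    rw [if_neg (by omega), if_neg (by omega), hxx]
    have e1 : (16 : ℝ) ^ (j + 1 + k) / (2 * 16 ^ j) = 8 * 16 ^ k := by
      rw [pow_add, pow_succ]; field_simp; norm_num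
    rw [e1, add_zero]
    refine le_trans (le_of_eq ?_) herr
    rw [← abs_neg]
    congr 1
    push_cast
    ring
  · subst h
    have he1 : e = 1 ∨ e = -1 := by
      have h1 := abs_le.1 he
      have h2 := hie rfl
      omega
    have e1 : (16 : ℝ) ^ j / (2 * 16 ^ j) = 1 / 2 := by field_simp
    rcases he1 with rfl | rfl
    · refine ⟨0, ?_⟩
      rw [if_pos rfl, if_neg (by omega), hxx, e1, add_zero]
      refine le_trans (le_of_eq ?_) herr
      rw [← abs_neg]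
      congr 1
      push_cast
      ring
    · refine ⟨-1, ?_⟩
      rw [if_pos rfl, if_neg (by omega), hxx, e1, add_zero]
      refine le_trans (le_of_eq ?_) herr
      rw [← abs_neg]
      congr 1
      push_cast
      ring
  · refine ⟨0, ?_⟩
    rw [if_neg (by omega), if_pos h, hxx]
    obtain ⟨k, rfl⟩ : ∃ k, j = i + k := ⟨j - i, by omega⟩
    have e1 : (16 : ℝ) ^ i / (2 * 16 ^ (i + k)) = (1 / 16) ^ (i + k - i) / 2 := by
      rw [Nat.add_sub_cancel_left, pow_add, one_div, inv_pow]; field_simp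
    have e2 : (e : ℝ) * (16 ^ i / (2 * 16 ^ (i + k)) - 16 ^ i * (r / (2 * 16 ^ (i + k))) / N) - 0 -
        ((0 : ℤ) : ℝ) = (e : ℝ) * ((1 / 16) ^ (i + k - i) / 2) -
        (e : ℝ) * (16 ^ i * (r / (2 * 16 ^ (i + k))) / N) := by
      rw [e1]; push_cast; ring
    rw [e2]
    refine (abs_sub _ _).trans ?_
    rw [add_comm]
    apply add_le_add herr
    rw [abs_mul]
    have h3 : (0 : ℝ) ≤ (1 / 16) ^ (i + k - i) / 2 := by positivity
    rw [abs_of_nonneg h3]
    calc |(e : ℝ)| * ((1 / 16 : ℝ) ^ (i + k - i) / 2) ≤ 1 * ((1 / 16 : ℝ) ^ (i + k - i) / 2) :=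
          mul_le_mul_of_nonneg_right her h3
      _ = _ := one_mul _

theorem tg_small (d N i : ℕ) (hN : 32 ^ (d + 1) ≤ N) (hi : i < d) :
    (d : ℝ) * (16 ^ i / N) ≤ 1 / 60 := by
  have hNr : (0 : ℝ) < N := by
    have : 0 < 32 ^ (d + 1) := by positivity
    exact_mod_cast this.trans_le hN
  have h1 : ((32 : ℝ) ^ (d + 1)) ≤ N := by exact_mod_cast hN
  have h2 : (16 : ℝ) ^ (i + 1) ≤ 16 ^ d := pow_le_pow_right₀ (by norm_num) hi
  have h3 : (d : ℝ) ≤ 2 ^ d := by exact_mod_cast (Nat.lt_two_pow_self).le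
  have h4 : (d : ℝ) * 16 ^ (i + 1) ≤ 32 ^ d := by
    calc (d : ℝ) * 16 ^ (i + 1) ≤ 2 ^ d * 16 ^ d :=
          mul_le_mul h3 h2 (by positivity) (by positivity)
      _ = 32 ^ d := by rw [← mul_pow]; norm_num
  rw [← mul_div_assoc, div_le_iff₀ hNr]
  have h5 : (32 : ℝ) ^ (d + 1) = 32 * 32 ^ d := by ring
  have h6 : (d : ℝ) * 16 ^ (i + 1) = 16 * (d * 16 ^ i) := by ring
  rw [h5] at h1
  rw [h6] at h4
  linarith

theorem tg_rep (N d : ℕ) (a b : Fin d → Bool) :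
    ((∑ j : Fin d, ((if a j then 1 else 0) - (if b j then 1 else 0)) *
      ((N / (2 * 16 ^ (j : ℕ)) : ℕ) : ℤ) : ℤ) : ZMod N) = X N a - X N b := by
  unfold X
  rw [← Finset.sum_sub_distrib, Int.cast_sum]
  apply Finset.sum_congr rfl
  intro j _
  rw [Int.cast_mul, Int.cast_natCast]
  cases a j <;> cases b j <;> simp

theorem tg_main (N d : ℕ) (hN : 32 ^ (d + 1) ≤ N) (a b : Fin d → Bool) (i : Fin d)
    (hi : a i ≠ b i) : Real.cos (th N i (X N a - X N b)) ≤ -(2 / 3) := by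
  have hN0 : 0 < N := lt_of_lt_of_le (by positivity) hN
  obtain ⟨e, he⟩ : ∃ e : Fin d → ℤ, e = fun j => (if a j then 1 else 0) - (if b j then 1 else 0) :=
    ⟨_, rfl⟩
  have he1 : ∀ j, |e j| ≤ 1 := by
    intro j
    rw [he]
    dsimp only
    cases a j <;> cases b j <;> simp
  have hei : e i ≠ 0 := by
    rw [he]
    dsimp only
    cases h1 : a i <;> cases h2 : b i <;> simp_all
  have hterm : ∀ j : Fin d, ∃ n : ℤ, |(e j : ℝ) * (16 ^ (i : ℕ) *
      ((N / (2 * 16 ^ (j : ℕ)) : ℕ) : ℝ) / N) - (if (j : ℕ) = i then 1 / 2 else 0) - n| ≤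
      16 ^ (i : ℕ) / N + (if (i : ℕ) < j then (1 / 16 : ℝ) ^ ((j : ℕ) - i) / 2 else 0) := by
    intro j
    apply tg_term N d hN0 i j i.2 (e j) (he1 j)
    intro hji
    have : j = i := Fin.ext hji
    rw [this]
    exact hei
  choose n hn using hterm
  rw [cos_th N hN0 i _ (∑ j : Fin d, e j * ((N / (2 * 16 ^ (j : ℕ)) : ℕ) : ℤ)) (by
    rw [he]; exact tg_rep N d a b)]
  obtain ⟨δ, hδ⟩ : ∃ δ : ℝ, δ = ∑ j : Fin d, ((e j : ℝ) * (16 ^ (i : ℕ) *
      ((N / (2 * 16 ^ (j : ℕ)) : ℕ) : ℝ) / N) - (if (j : ℕ) = i then 1 / 2 else 0) - n j) :=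
    ⟨_, rfl⟩
  have hδ1 : |δ| ≤ 1 / 20 := by
    rw [hδ]
    refine (Finset.abs_sum_le_sum_abs _ _).trans ?_
    refine (Finset.sum_le_sum (fun j _ => hn j)).trans ?_
    rw [Finset.sum_add_distrib, Finset.sum_const, Finset.card_univ, Fintype.card_fin,
      nsmul_eq_mul]
    have h1 := tg_small d N i hN i.2
    have h2 := tg_geom2 d i
    rw [Finset.sum_range] at h2
    linarith
  have hδ2 : δ = (16 ^ (i : ℕ) * ((∑ j : Fin d, e j * ((N / (2 * 16 ^ (j : ℕ)) : ℕ) : ℤ) : ℤ) : ℝ)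
      / N) - 1 / 2 - ((∑ j, n j : ℤ) : ℝ) := by
    rw [hδ, Finset.sum_sub_distrib, Finset.sum_sub_distrib]
    congr 1
    · congr 1
      · rw [Int.cast_sum, Finset.mul_sum, Finset.sum_div]
        apply Finset.sum_congr rfl
        intro j _
        rw [Int.cast_mul, Int.cast_natCast]
        ring
      · have : ∀ j : Fin d, (if (j : ℕ) = i then (1 / 2 : ℝ) else 0) =
            if j = i then 1 / 2 else 0 := by
          intro j
          by_cases h : j = i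
          · rw [if_pos h, if_pos (congrArg _ h)]
          · rw [if_neg h, if_neg (fun h' => h (Fin.ext h'))]
        simp only [this]
        rw [Finset.sum_ite_eq' Finset.univ i, if_pos (Finset.mem_univ _)]
    · push_cast
      rfl
  have h3 : 2 * Real.pi * (16 ^ (i : ℕ) *
      ((∑ j : Fin d, e j * ((N / (2 * 16 ^ (j : ℕ)) : ℕ) : ℤ) : ℤ) : ℝ) / N) =
      (2 * Real.pi * δ + Real.pi) + ((∑ j, n j : ℤ) : ℝ) * (2 * Real.pi) := by
    rw [hδ2]
    ring
  rw [h3, Real.cos_add_int_mul_two_pi, Real.cos_add_pi]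
  have h4 := Real.one_sub_sq_div_two_le_cos (x := 2 * Real.pi * δ)
  have h5 : (2 * Real.pi * δ) ^ 2 ≤ (2 * 4 * (1 / 20)) ^ 2 := by
    rw [← sq_abs]
    apply pow_le_pow_left₀ (abs_nonneg _)
    rw [abs_mul, abs_mul, abs_two, abs_of_pos Real.pi_pos]
    have hpi : Real.pi ≤ 4 := Real.pi_le_four
    have : 0 ≤ |δ| := abs_nonneg δ
    calc 2 * Real.pi * |δ| ≤ 2 * 4 * (1 / 20) := by
          apply mul_le_mul _ hδ1 this (by norm_num)
          linarith
      _ = _ := rfl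
  have h6 : ((2 * 4 * (1 / 20) : ℝ)) ^ 2 = 4 / 25 := by norm_num
  rw [h6] at h5
  linarith

/-- If `a` and `b` agree on at most a quarter of the coordinates, the sum of cosines at the
difference is at most `- d / 4`. -/
theorem tg_sum (N d : ℕ) (hN : 32 ^ (d + 1) ≤ N) (a b : Fin d → Bool)
    (h : 4 * (Finset.univ.filter (fun i => a i = b i)).card ≤ d) :
    Sg N d (X N a - X N b) ≤ -(d / 4 : ℝ) := by
  unfold Sg
  have h1 : ∀ j : Fin d, Real.cos (th N j (X N a - X N b)) ≤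
      -(2 / 3) + (if a j = b j then 5 / 3 else 0) := by
    intro j
    by_cases hj : a j = b j
    · rw [if_pos hj]
      have := Real.cos_le_one (th N j (X N a - X N b))
      linarith
    · rw [if_neg hj, add_zero]
      exact tg_main N d hN a b j hj
  refine (Finset.sum_le_sum (fun j _ => h1 j)).trans ?_
  rw [Finset.sum_add_distrib, Finset.sum_const, Finset.card_univ, Fintype.card_fin,
    nsmul_eq_mul, ← Finset.sum_filter, Finset.sum_const, nsmul_eq_mul]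
  have h2 : 4 * ((Finset.univ.filter (fun i => a i = b i)).card : ℝ) ≤ d := by exact_mod_cast h
  linarith

end Pool.H15.PB
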